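import Mathlib

/-! A uniform integrability exponent for polynomials of bounded degree. -/

namespace Iso

open MeasureTheory Metric Polynomial
open scoped ENNReal

lemma prod_roots_le {z : ℂ} {R δ : ℝ} (hz : ‖z‖ ≤ R) (h0 : 0 ≤ δ) (h1 : δ ≤ 1) (s : Multiset ℂ)
    (hs : ∀ r ∈ s, δ ≤ ‖z - r‖) :
    (s.map fun a => max 1 ‖a‖).prod * δ ^ s.card
      ≤ (2 * R + 2) ^ s.card * ‖(s.map fun a => z - a).prod‖ := by
  have hR : 0 ≤ R := (norm_nonneg z).trans hz
  induction s using Multiset.induction_on with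
  | empty => simp
  | cons r s ih =>
    have h2 := ih fun a ha => hs a (Multiset.mem_cons_of_mem ha)
    have h3 := hs r (Multiset.mem_cons_self _ _)
    have h4 : max 1 ‖r‖ * δ ≤ (2 * R + 2) * ‖z - r‖ := by
      rcases le_total ‖r‖ (2 * R + 2) with h | h
      · exact mul_le_mul (max_le (by linarith) h) h3 h0 (by linarith)
      · have h5 : ‖r‖ - ‖z‖ ≤ ‖z - r‖ := by rw [norm_sub_rev]; exact norm_sub_norm_le _ _
        rw [max_eq_right (by linarith)]
        nlinarith [norm_nonneg r]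
    have h6 : 0 ≤ (s.map fun a => max 1 ‖a‖).prod :=
      Multiset.prod_map_nonneg fun a _ => le_max_of_le_left zero_le_one
    simp only [Multiset.map_cons, Multiset.prod_cons, Multiset.card_cons, pow_succ, norm_mul]
    calc max 1 ‖r‖ * (s.map fun a => max 1 ‖a‖).prod * (δ ^ s.card * δ)
        = (max 1 ‖r‖ * δ) * ((s.map fun a => max 1 ‖a‖).prod * δ ^ s.card) := by ring
      _ ≤ ((2 * R + 2) * ‖z - r‖) * ((2 * R + 2) ^ s.card * ‖(s.map fun a => z - a).prod‖) :=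
        mul_le_mul h4 h2 (by positivity) (by positivity)
      _ = _ := by ring

/-- a lower bound for a polynomial at distance `δ` from its roots -/
lemma coeff_mul_pow_le {p : ℂ[X]} {d : ℕ} (hd : p.natDegree ≤ d) {z : ℂ} {R δ : ℝ} (hz : ‖z‖ ≤ R)
    (h0 : 0 ≤ δ) (h1 : δ ≤ 1) (hs : ∀ r ∈ p.roots, δ ≤ ‖z - r‖) (j : ℕ) :
    ‖p.coeff j‖ * δ ^ d ≤ (4 * R + 4) ^ d * ‖p.eval z‖ := by
  have hR : 0 ≤ R := (norm_nonneg z).trans hz
  have hc : p.roots.card = p.natDegree := IsAlgClosed.card_roots_eq_natDegree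
  have h2 := prod_roots_le hz h0 h1 p.roots hs
  rw [hc] at h2
  have h3 := p.norm_coeff_le_choose_mul_mahlerMeasure j
  have h4 : ((p.natDegree.choose j : ℕ) : ℝ) ≤ 2 ^ p.natDegree := by
    exact_mod_cast Nat.choose_le_two_pow _ _
  have h5 : p.eval z = p.leadingCoeff * (p.roots.map fun a => z - a).prod :=
    (IsAlgClosed.splits p).eval_eq_prod_roots z
  have h6 : p.mahlerMeasure * δ ^ p.natDegree ≤ (2 * R + 2) ^ p.natDegree * ‖p.eval z‖ := by
    rw [mahlerMeasure_eq_leadingCoeff_mul_prod_roots, h5, norm_mul, mul_assoc,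
      mul_left_comm ((2 * R + 2) ^ p.natDegree)]
    exact mul_le_mul_of_nonneg_left h2 (norm_nonneg _)
  have h7 := p.mahlerMeasure_nonneg
  calc ‖p.coeff j‖ * δ ^ d ≤ (2 ^ p.natDegree * p.mahlerMeasure) * δ ^ p.natDegree :=
        mul_le_mul (h3.trans (by gcongr)) (pow_le_pow_of_le_one h0 h1 hd) (by positivity)
          (by positivity)
    _ ≤ 2 ^ p.natDegree * ((2 * R + 2) ^ p.natDegree * ‖p.eval z‖) := by
        rw [mul_assoc]; gcongr
    _ = (4 * R + 4) ^ p.natDegree * ‖p.eval z‖ := by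
        rw [← mul_assoc, ← mul_pow]; congr 2; ring
    _ ≤ _ := by gcongr; linarith

lemma rpow_neg_le_of {A D K V : ℝ≥0∞} {c : ℝ} (hc : 0 ≤ c) (hA : A ≠ ∞) (hD : D ≠ ∞) (hK0 : K ≠ 0)
    (hK : K ≠ ∞) (h : A * D ≤ K * V) : V ^ (-c) ≤ K ^ c * A ^ (-c) * D ^ (-c) := by
  have h1 : (K * V)⁻¹ ≤ (A * D)⁻¹ := ENNReal.inv_le_inv.2 h
  rw [ENNReal.mul_inv (Or.inl hK0) (Or.inl hK), ENNReal.mul_inv (Or.inr hD) (Or.inl hA)] at h1
  have h2 : V⁻¹ ≤ K * A⁻¹ * D⁻¹ := by
    calc V⁻¹ = K * (K⁻¹ * V⁻¹) := by rw [← mul_assoc, ENNReal.mul_inv_cancel hK0 hK, one_mul]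
      _ ≤ K * (A⁻¹ * D⁻¹) := by gcongr
      _ = _ := (mul_assoc _ _ _).symm
  have h3 := ENNReal.rpow_le_rpow h2 hc
  rwa [ENNReal.mul_rpow_of_nonneg _ _ hc, ENNReal.mul_rpow_of_nonneg _ _ hc, ENNReal.inv_rpow,
    ENNReal.inv_rpow, ENNReal.inv_rpow, ← ENNReal.rpow_neg, ← ENNReal.rpow_neg,
    ← ENNReal.rpow_neg] at h3

/-- the local integral of a negative power of the distance -/
noncomputable def lctI (e : ℝ) : ℝ≥0∞ := ∫⁻ w in ball (0 : ℂ) 1, ‖w‖ₑ ^ (-e)

lemma lctI_lt_top {e : ℝ} (he : e < 2) : lctI e < ∞ := by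
  have h := integrableOn_ball_of_norm_le_rpow (μ := (volume : Measure ℂ)) (E := ℂ) (F := ℝ)
    (f := fun w => ‖w‖ ^ (-e)) (C := 1) (α := e) (r := 1) (by simp) (by simpa using he)
    (Filter.Eventually.of_forall fun w => by
      rw [one_mul, Real.norm_of_nonneg (Real.rpow_nonneg (norm_nonneg _) _)])
    (measurable_norm.pow_const _).aestronglyMeasurable
  refine lt_of_eq_of_lt (lintegral_congr_ae ?_) h.2
  filter_upwards [ae_restrict_of_ae (Measure.ae_ne volume (0 : ℂ))] with w hw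
  rw [← ofReal_norm, ← ofReal_norm, Real.norm_of_nonneg (Real.rpow_nonneg (norm_nonneg _) _),
    ENNReal.ofReal_rpow_of_pos (norm_pos_iff.2 hw)]

/-- the constant of the one variable estimate -/
noncomputable def lctC (c : ℝ) (d : ℕ) (R : ℝ) : ℝ≥0∞ :=
  (ENNReal.ofReal ((4 * R + 4) ^ d)) ^ c * (volume (ball (0 : ℂ) R) + d * lctI (d * c))

lemma lctC_lt_top {c : ℝ} {d : ℕ} (hc : 0 ≤ c) (hd : d * c < 2) (R : ℝ) : lctC c d R < ∞ :=
  ENNReal.mul_lt_top (ENNReal.rpow_lt_top_of_nonneg hc ENNReal.ofReal_ne_top)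
    (ENNReal.add_lt_top.2 ⟨measure_ball_lt_top,
      ENNReal.mul_lt_top (ENNReal.natCast_lt_top d) (lctI_lt_top hd)⟩)

theorem lct_one {c : ℝ} (hc : 0 ≤ c) {d : ℕ} (R : ℝ) {p : ℂ[X]} (hd : p.natDegree ≤ d) (j : ℕ) :
    ∫⁻ z in ball (0 : ℂ) R, ‖p.eval z‖ₑ ^ (-c) ≤ lctC c d R * ‖p.coeff j‖ₑ ^ (-c) := by
  classical
  set K := ENNReal.ofReal ((4 * R + 4) ^ d) with hK
  let g : ℂ → ℝ≥0∞ := (ball (0 : ℂ) 1).indicator fun w => ‖w‖ₑ ^ (-(d * c))
  have hg : Measurable g := (measurable_enorm.pow_const _).indicator measurableSet_ball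
  have hpt : ∀ z ∈ ball (0 : ℂ) R, ‖p.eval z‖ₑ ^ (-c)
      ≤ K ^ c * ‖p.coeff j‖ₑ ^ (-c) * (1 + ∑ r ∈ p.roots.toFinset, g (z - r)) := by
    intro z hz
    rw [mem_ball_zero_iff] at hz
    have hR : 0 < R := (norm_nonneg z).trans_lt hz
    have key : ∀ δ : ℝ, 0 ≤ δ → δ ≤ 1 → (∀ r ∈ p.roots, δ ≤ ‖z - r‖) → ‖p.eval z‖ₑ ^ (-c)
        ≤ K ^ c * ‖p.coeff j‖ₑ ^ (-c) * ENNReal.ofReal δ ^ (-(d * c)) := fun δ h0 h1 hs => by
      have h2 := ENNReal.ofReal_le_ofReal (coeff_mul_pow_le hd hz.le h0 h1 hs j)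
      rw [ENNReal.ofReal_mul (norm_nonneg _), ENNReal.ofReal_mul (by positivity), ofReal_norm,
        ofReal_norm, ENNReal.ofReal_pow h0] at h2
      have h3 := rpow_neg_le_of hc enorm_ne_top (ENNReal.pow_ne_top ENNReal.ofReal_ne_top)
        (ENNReal.ofReal_pos.2 (by positivity)).ne' ENNReal.ofReal_ne_top h2
      rwa [← ENNReal.rpow_natCast (ENNReal.ofReal δ), ← ENNReal.rpow_mul, mul_neg] at h3
    by_cases h : ∀ r ∈ p.roots, 1 ≤ ‖z - r‖
    · refine (key 1 zero_le_one le_rfl h).trans ?_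
      gcongr
      simp
    · push Not at h
      obtain ⟨r1, hr1, hr2⟩ := h
      obtain ⟨r, hr, hmin⟩ := p.roots.toFinset.exists_min_image (fun r => ‖z - r‖)
        ⟨r1, Multiset.mem_toFinset.2 hr1⟩
      have hlt : ‖z - r‖ < 1 := (hmin r1 (Multiset.mem_toFinset.2 hr1)).trans_lt hr2
      refine (key _ (norm_nonneg _) hlt.le fun a ha => hmin a (Multiset.mem_toFinset.2 ha)).trans ?_
      gcongr
      refine le_add_left (le_trans (le_of_eq ?_)
        (Finset.single_le_sum (f := fun r => g (z - r)) (fun _ _ => zero_le) hr))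
      simp only [g, Set.indicator_of_mem (mem_ball_zero_iff.2 hlt), ofReal_norm]
  have hm : Measurable fun z : ℂ => 1 + ∑ r ∈ p.roots.toFinset, g (z - r) :=
    measurable_const.add (Finset.measurable_sum _ fun r _ => hg.comp (measurable_sub_const r))
  refine (setLIntegral_mono (hm.const_mul _) hpt).trans ?_
  rw [lintegral_const_mul _ hm, lctC, mul_right_comm]
  gcongr
  rw [lintegral_add_left measurable_const, setLIntegral_one,
    lintegral_finsetSum (f := fun r z => g (z - r)) _ fun r _ => hg.comp (measurable_sub_const r)]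
  gcongr
  have h1 : ∀ r : ℂ, ∫⁻ z in ball (0 : ℂ) R, g (z - r) ≤ lctI (d * c) := fun r => by
    refine (setLIntegral_le_lintegral _ _).trans (le_of_eq ?_)
    rw [lintegral_sub_right_eq_self g r, lctI, lintegral_indicator measurableSet_ball]
  refine (Finset.sum_le_card_nsmul _ _ _ fun r _ => h1 r).trans ?_
  rw [nsmul_eq_mul]
  gcongr
  exact (Multiset.toFinset_card_le _).trans ((card_roots' p).trans hd)

/-- from one variable to several variables -/
theorem lct_pi {c : ℝ} {d : ℕ} (μ : Measure ℂ) [SigmaFinite μ] {C : ℝ≥0∞}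
    (h1 : ∀ p : ℂ[X], p.natDegree ≤ d → ∀ j, ∫⁻ z, ‖p.eval z‖ₑ ^ (-c) ∂μ ≤ C * ‖p.coeff j‖ₑ ^ (-c))
    (n : ℕ) (P : MvPolynomial (Fin n) ℂ) (hP : ∀ i, P.degreeOf i ≤ d) (m : Fin n →₀ ℕ) :
    ∫⁻ x, ‖MvPolynomial.eval x P‖ₑ ^ (-c) ∂(Measure.pi fun _ => μ)
      ≤ C ^ n * ‖P.coeff m‖ₑ ^ (-c) := by
  have hmeas : ∀ {k : ℕ} (Q : MvPolynomial (Fin k) ℂ),
      Measurable fun x => ‖MvPolynomial.eval x Q‖ₑ ^ (-c) := fun Q =>
    (MvPolynomial.continuous_eval Q).measurable.enorm.pow_const _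
  induction n with
  | zero =>
    rw [P.eq_C_of_isEmpty, Subsingleton.elim m 0]
    simp
  | succ n ih =>
    have hp := (measurePreserving_piFinSuccAbove (fun _ : Fin (n + 1) => μ) 0).symm
    rw [← hp.lintegral_comp (hmeas P)]
    refine (lintegral_prod_symm' _ ((hmeas P).comp (MeasurableEquiv.measurable _))).trans_le ?_
    set Q := (MvPolynomial.finSuccEquiv ℂ n P).coeff (m 0) with hQ
    calc _ ≤ ∫⁻ y, C * ‖MvPolynomial.eval y Q‖ₑ ^ (-c) ∂(Measure.pi fun _ => μ) := by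
          refine lintegral_mono fun y => ?_
          have h2 := h1 ((MvPolynomial.finSuccEquiv ℂ n P).map (MvPolynomial.eval y))
            (natDegree_map_le.trans ((MvPolynomial.natDegree_finSuccEquiv P).trans_le (hP 0))) (m 0)
          rw [coeff_map] at h2
          refine le_trans (le_of_eq (lintegral_congr fun z => ?_)) h2
          rw [← MvPolynomial.eval_eq_eval_mv_eval']
          simp [MeasurableEquiv.piFinSuccAbove_symm_apply, Fin.insertNthEquiv]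
      _ ≤ C * (C ^ n * ‖Q.coeff m.tail‖ₑ ^ (-c)) := by
          rw [lintegral_const_mul _ (hmeas Q)]
          gcongr
          exact ih Q (fun i => (MvPolynomial.degreeOf_coeff_finSuccEquiv P i _).trans (hP _)) _
      _ = _ := by
          rw [hQ, MvPolynomial.finSuccEquiv_coeff_coeff, Finsupp.cons_tail, pow_succ', mul_assoc]

/-- uniform integrability of negative powers on a polydisc -/
theorem lct {c : ℝ} (hc : 0 ≤ c) {d n : ℕ} {R : ℝ} (hR : 0 < R) (P : MvPolynomial (Fin n) ℂ)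
    (hP : ∀ i, P.degreeOf i ≤ d) (m : Fin n →₀ ℕ) :
    ∫⁻ x in ball (0 : Fin n → ℂ) R, ‖MvPolynomial.eval x P‖ₑ ^ (-c)
      ≤ lctC c d R ^ n * ‖P.coeff m‖ₑ ^ (-c) := by
  have := lct_pi (volume.restrict (ball (0 : ℂ) R)) (fun p hp j => lct_one hc R hp j) n P hP m
  rwa [← Measure.restrict_pi_pi, ← volume_pi, show (Set.univ.pi fun _ : Fin n => ball (0 : ℂ) R)
    = ball (0 : Fin n → ℂ) R from (ball_pi _ hR).symm] at this

end Iso
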