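import Mathlib

/-! Functions on the line whose translates span a finite dimensional space. -/

namespace Iso

open Filter Topology

/-- all translates of `g` lie in one finite dimensional space of functions -/
def FD (g : ℝ → ℝ) : Prop :=
  ∃ V : Submodule ℝ (ℝ → ℝ), FiniteDimensional ℝ V ∧ ∀ t : ℝ, (fun x => g (x + t)) ∈ V

lemma exists_det_ne_zero {n : ℕ} {α : Type*} {φ : Fin n → α → ℝ} (h : LinearIndependent ℝ φ) :
    ∃ x : Fin n → α, (Matrix.of fun i j => φ j (x i)).det ≠ 0 := by
  classical
  have hsp := span_flip_eq_top_iff_linearIndependent.2 h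
  obtain ⟨κ, a, -, hsp', hli⟩ := exists_linearIndependent' ℝ (flip φ)
  rw [hsp] at hsp'
  have : Finite κ := hli.finite
  have := Fintype.ofFinite κ
  let B : Module.Basis κ ℝ (Fin n → ℝ) := Module.Basis.mk hli (by rw [hsp'])
  have hc : Fintype.card κ = n := by
    have := Module.finrank_eq_card_basis B
    simpa using this.symm
  let e : Fin n ≃ κ := (Fintype.equivFinOfCardEq hc).symm
  refine ⟨fun i => a (e i), ?_⟩
  have hli' : LinearIndependent ℝ (Matrix.of fun i j => φ j (a (e i))).row :=
    hli.comp e e.injective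
  have := Matrix.linearIndependent_rows_iff_isUnit.1 hli'
  rw [Matrix.isUnit_iff_isUnit_det] at this
  exact this.ne_zero

lemma FD_of_det {b : ℕ} {g : ℝ → ℝ}
    (h : ∀ x t : Fin (b + 1) → ℝ, (Matrix.of fun i j => g (x i + t j)).det = 0) : FD g := by
  classical
  obtain ⟨κ, a, -, hsp, hli⟩ := exists_linearIndependent' ℝ (fun t : ℝ => fun x => g (x + t))
  have hfin : Finite κ := by
    by_contra hinf
    rw [not_finite_iff_infinite] at hinf
    let e : Fin (b + 1) ↪ κ := (Fin.valEmbedding).trans (Infinite.natEmbedding κ)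
    obtain ⟨x, hx⟩ := exists_det_ne_zero (hli.comp e e.injective)
    exact hx (h x fun j => a (e j))
  refine ⟨Submodule.span ℝ (Set.range ((fun t : ℝ => fun x => g (x + t)) ∘ a)), ?_, fun t => ?_⟩
  · exact FiniteDimensional.span_of_finite ℝ (Set.finite_range _)
  · rw [hsp]
    exact Submodule.subset_span ⟨t, rfl⟩

lemma FD.add_const {g : ℝ → ℝ} (h : FD g) (c : ℝ) : FD fun x => g x + c := by
  obtain ⟨V, hV, hg⟩ := h
  refine ⟨V ⊔ Submodule.span ℝ {fun _ => c}, inferInstance, fun t => ?_⟩
  exact Submodule.add_mem_sup (hg t) (Submodule.subset_span rfl)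

lemma FD.exp_mul {g : ℝ → ℝ} (h : FD g) (c : ℝ) : FD fun x => Real.exp (c * x) * g x := by
  obtain ⟨V, hV, hg⟩ := h
  let L : (ℝ → ℝ) →ₗ[ℝ] (ℝ → ℝ) := LinearMap.mulLeft ℝ fun x => Real.exp (c * x)
  refine ⟨V.map L, inferInstance, fun t => ?_⟩
  have h1 : L (fun x => g (x + t)) ∈ V.map L := Submodule.mem_map_of_mem (hg t)
  have h2 := Submodule.smul_mem _ (Real.exp (c * t)) h1
  convert h2 using 1
  funext x
  simp only [L, LinearMap.mulLeft_apply, Pi.smul_apply, Pi.mul_apply, smul_eq_mul, mul_add,
    Real.exp_add]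
  ring

/-- a bounded continuous function with finitely many independent translates that tends to zero
at plus infinity is zero -/
lemma FD.eq_zero {k : ℝ → ℝ} (h : FD k) (hc : Continuous k) {C : ℝ} (hb : ∀ x, |k x| ≤ C)
    (h0 : Tendsto k atTop (𝓝 0)) (x : ℝ) : k x = 0 := by
  obtain ⟨V, hV, hk⟩ := h
  let ι : BoundedContinuousFunction ℝ ℝ →ₗ[ℝ] (ℝ → ℝ) :=
    { toFun := fun f => f, map_add' := fun _ _ => rfl, map_smul' := fun _ _ => rfl }
  have hι : Function.Injective ι := fun f g hfg => DFunLike.coe_injective hfg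
  let T : ℝ → BoundedContinuousFunction ℝ ℝ := fun t =>
    BoundedContinuousFunction.ofNormedAddCommGroup (fun y => k (y + t))
      (hc.comp (continuous_id.add continuous_const)) C fun y => hb (y + t)
  let W := V.comap ι
  have : FiniteDimensional ℝ W := by
    let f : W →ₗ[ℝ] V := (ι.domRestrict W).codRestrict V fun w => w.2
    refine FiniteDimensional.of_injective f fun u v huv => ?_
    apply Subtype.ext
    apply hι
    exact congrArg Subtype.val huv
  have hT : ∀ t, T t ∈ W := fun t => hk t
  let j : W →ₗ[ℝ] (ℝ → ℝ) := ι.domRestrict W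
  have hj1 : Function.Injective j := fun u v huv => by
    apply Subtype.ext
    apply hι
    exact huv
  have hj0 : LinearMap.ker j = ⊥ := LinearMap.ker_eq_bot_of_injective hj1
  have hj : Topology.IsClosedEmbedding j :=
    LinearMap.isClosedEmbedding_of_injective (𝕜 := ℝ) (E := W) (F := ℝ → ℝ) (f := j) hj0
  have h1 : Tendsto (fun t => j ⟨T t, hT t⟩) atTop (𝓝 (j 0)) := by
    rw [map_zero, tendsto_pi_nhds]
    intro y
    exact h0.comp (tendsto_atTop_add_const_left _ y tendsto_id)
  have h2 : Tendsto (fun t => (⟨T t, hT t⟩ : W)) atTop (𝓝 0) :=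
    hj.isEmbedding.tendsto_nhds_iff.2 h1
  have h3 : Tendsto (fun t => ‖T t‖) atTop (𝓝 0) := by
    have h6 : Tendsto T atTop (𝓝 0) := (continuous_subtype_val.tendsto _).comp h2
    simpa using h6.norm
  have h4 : ∀ t, |k x| ≤ ‖T t‖ := fun t => by
    have := (T t).norm_coe_le_norm (x - t)
    simpa [T] using this
  have h5 : |k x| ≤ 0 := ge_of_tendsto' h3 h4
  exact abs_nonpos_iff.1 h5

/-- the two sided bounds that come from subadditivity force additivity -/
lemma FD.eq_add {g : ℝ → ℝ} (h : FD g) (hc : Continuous g) {A B c : ℝ} (hc0 : c ≠ 0)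
    (h1 : ∀ x, |g x - A| ≤ Real.exp (c * x) * B) (h2 : ∀ x, |g x - Real.exp (c * x) * B| ≤ A) :
    g 0 = A + B := by
  have hA : 0 ≤ A := (abs_nonneg _).trans (h2 0)
  have hB : 0 ≤ B := by
    have := (abs_nonneg _).trans (h1 0)
    simpa using this
  rcases lt_or_gt_of_ne hc0 with hneg | hpos
  · have hk : FD fun x => (Real.exp (-c * x) * (g x + -A) + -B) :=
      ((h.add_const _).exp_mul _).add_const _
    have hk' : FD fun x => Real.exp (c * x) * (Real.exp (-c * x) * (g x + -A) + -B) :=
      hk.exp_mul c
    have e : ∀ x, Real.exp (c * x) * (Real.exp (-c * x) * (g x + -A) + -B)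
        = g x - A - Real.exp (c * x) * B := fun x => by
      have : Real.exp (c * x) * Real.exp (-c * x) = 1 := by
        rw [← Real.exp_add]; simp
      linear_combination (g x - A) * this
    simp only [e] at hk'
    have := hk'.eq_zero (C := 2 * A) (by fun_prop) (fun x => by
      have := h2 x
      rw [abs_le] at this ⊢
      constructor <;> linarith [this.1, this.2]) (by
      have hz : Tendsto (fun x => Real.exp (c * x) * B * 2) atTop (𝓝 (0 * B * 2)) :=
        ((Real.tendsto_exp_atBot.comp
          (tendsto_id.const_mul_atTop_of_neg hneg)).mul_const B).mul_const 2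
      rw [zero_mul, zero_mul] at hz
      refine squeeze_zero_norm (fun x => ?_) hz
      have := h1 x
      have h3 : 0 ≤ Real.exp (c * x) * B := by positivity
      rw [Real.norm_eq_abs, abs_le] at *
      constructor <;> linarith [this.1, this.2]) 0
    simp only [mul_zero, Real.exp_zero, one_mul] at this
    linarith
  · have hk : FD fun x => (Real.exp (-c * x) * (g x + -A) + -B) :=
      ((h.add_const _).exp_mul _).add_const _
    have e : ∀ x, Real.exp (c * x) * Real.exp (-c * x) = 1 := fun x => by
      rw [← Real.exp_add]; simp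
    have := hk.eq_zero (C := 2 * B) (by fun_prop) (fun x => by
      have h3 := h1 x
      have h4 : |Real.exp (-c * x) * (g x + -A)| ≤ B := by
        rw [abs_mul, abs_of_pos (Real.exp_pos _), ← sub_eq_add_neg]
        calc Real.exp (-c * x) * |g x - A| ≤ Real.exp (-c * x) * (Real.exp (c * x) * B) := by
              gcongr
          _ = B := by linear_combination B * e x
      rw [abs_le] at h4 ⊢
      constructor <;> linarith [h4.1, h4.2]) (by
      have hz : Tendsto (fun x => Real.exp (-c * x) * (2 * A)) atTop (𝓝 (0 * (2 * A))) :=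
        (Real.tendsto_exp_atBot.comp
          (tendsto_id.const_mul_atTop_of_neg (neg_neg_of_pos hpos))).mul_const _
      rw [zero_mul] at hz
      refine squeeze_zero_norm (fun x => ?_) hz
      have h3 := h2 x
      have h4 : Real.exp (-c * x) * (g x + -A) + -B
          = Real.exp (-c * x) * (g x - Real.exp (c * x) * B - A) := by
        linear_combination B * e x
      rw [Real.norm_eq_abs, h4, abs_mul, abs_of_pos (Real.exp_pos _)]
      gcongr
      rw [abs_le] at h3 ⊢
      constructor <;> linarith [h3.1, h3.2]) 0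
    simp only [mul_zero, Real.exp_zero, one_mul] at this
    linarith

end Iso
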