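import Mathlib

/-! Polarisation: a function of the imaginary part only that is locally a sum of `b` products of a
holomorphic and an antiholomorphic function has vanishing translate determinants of size `b + 1`. -/

namespace Iso

open Filter Topology Complex ComplexConjugate Metric

lemma det_mul_eq_zero {b : ℕ} (A : Matrix (Fin (b + 1)) (Fin b) ℂ)
    (B : Matrix (Fin b) (Fin (b + 1)) ℂ) : (A * B).det = 0 := by
  by_contra h
  have hu : IsUnit (A * B) := (Matrix.isUnit_iff_isUnit_det _).2 (isUnit_iff_ne_zero.2 h)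
  have h1 := Matrix.rank_of_isUnit _ hu
  have h2 := (Matrix.rank_mul_le_left A B).trans (Matrix.rank_le_width A)
  simp at h1
  omega

/-- an entire function that is not zero at the origin is not zero on a whole horizontal line -/
lemma exists_real_ne_zero {h : ℂ → ℂ} (hh : Differentiable ℂ h) (h0 : h 0 ≠ 0) (x : ℝ) :
    ∃ t : ℝ, h (t + x * I) ≠ 0 := by
  by_contra hc
  push Not at hc
  have ha : AnalyticOnNhd ℂ h Set.univ := fun z _ => hh.analyticAt z
  have hf : ∃ᶠ z in 𝓝[≠] ((x : ℂ) * I), h z = 0 := by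
    have ht : Tendsto (fun t : ℝ => (t : ℂ) + x * I) (𝓝[≠] 0) (𝓝[≠] ((x : ℂ) * I)) := by
      refine tendsto_nhdsWithin_iff.2 ⟨?_, ?_⟩
      · have : Tendsto (fun t : ℝ => (t : ℂ) + x * I) (𝓝 0) (𝓝 (((0 : ℝ) : ℂ) + x * I)) :=
          (Complex.continuous_ofReal.add continuous_const).tendsto 0
        simpa using this.mono_left nhdsWithin_le_nhds
      · filter_upwards [self_mem_nhdsWithin] with t ht
        simpa using ht
    exact ht.frequently (Frequently.of_forall hc)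
  exact h0 (ha.eqOn_zero_of_preconnected_of_frequently_eq_zero isPreconnected_univ
    (Set.mem_univ _) hf (Set.mem_univ 0))

section
variable {b : ℕ} {G : ℂ → ℝ} {t0 x0 ρ : ℝ} {f g : Fin b → ℂ → ℂ}

lemma analyticAt_of_sum (hρ : 0 < ρ)
    (hf : ∀ i, DifferentiableOn ℂ (f i) (ball ((t0 : ℂ) + x0 * I) ρ))
    (hg : ∀ i, DifferentiableOn ℂ (g i) (ball ((t0 : ℂ) + x0 * I) ρ))
    (hG : ∀ u ∈ ball ((t0 : ℂ) + x0 * I) ρ, (G u : ℂ) = ∑ i, f i u * conj (g i u)) :
    AnalyticAt ℝ (fun x : ℝ => G (t0 + x * I)) x0 := by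
  have hl : AnalyticAt ℝ (fun x : ℝ => (t0 : ℂ) + x * I) x0 :=
    analyticAt_const.add (Complex.ofRealCLM.analyticAt x0 |>.mul analyticAt_const)
  have h1 : ∀ {φ : ℂ → ℂ}, DifferentiableOn ℂ φ (ball ((t0 : ℂ) + x0 * I) ρ) →
      AnalyticAt ℝ (fun x : ℝ => φ (t0 + x * I)) x0 := fun {φ} hφ =>
    AnalyticAt.comp (f := fun x : ℝ => (t0 : ℂ) + x * I)
      ((hφ.analyticAt (ball_mem_nhds _ hρ)).restrictScalars) hl
  have h2 : AnalyticAt ℝ
      (fun x : ℝ => (∑ i, f i (t0 + x * I) * conj (g i (t0 + x * I))).re) x0 := by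
    refine (Complex.reCLM.analyticAt _).comp ?_
    refine Finset.analyticAt_fun_sum _ fun i _ => (h1 (hf i)).mul ?_
    exact (Complex.conjCLE.toContinuousLinearMap.analyticAt _).comp (h1 (hg i))
  refine h2.congr ?_
  have h3 : ∀ᶠ x : ℝ in 𝓝 x0, (t0 : ℂ) + x * I ∈ ball ((t0 : ℂ) + x0 * I) ρ :=
    hl.continuousAt.preimage_mem_nhds (ball_mem_nhds _ hρ)
  filter_upwards [h3] with x hx
  rw [← hG _ hx, Complex.ofReal_re]

lemma polar (hinv : ∀ (u : ℂ) (t : ℝ), G (u + t) = G u)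
    (hf : ∀ i, DifferentiableOn ℂ (f i) (ball ((t0 : ℂ) + x0 * I) ρ))
    (hg : ∀ i, DifferentiableOn ℂ (g i) (ball ((t0 : ℂ) + x0 * I) ρ))
    (hG : ∀ u ∈ ball ((t0 : ℂ) + x0 * I) ρ, (G u : ℂ) = ∑ i, f i u * conj (g i u))
    {α β : ℝ} (hα : |α| < ρ / 4) (hβ : |β| < ρ / 4) :
    (G ((x0 + (α + β) : ℝ) * I) : ℂ)
      = ∑ i, f i (t0 + (x0 + 2 * α) * I) * conj (g i (t0 + (x0 + 2 * β) * I)) := by
  have hρ : 0 < ρ := by linarith [abs_nonneg α]
  set z : ℝ := x0 + (α + β) with hz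
  have hab : |α + β| < ρ / 2 := (abs_add_le _ _).trans_lt (by linarith)
  have hmem : ∀ s ∈ ball (t0 : ℂ) (ρ / 2), s + z * I ∈ ball ((t0 : ℂ) + x0 * I) ρ := by
    intro s hs
    rw [mem_ball_iff_norm] at hs ⊢
    have : s + z * I - (t0 + x0 * I) = (s - t0) + ((α + β : ℝ) : ℂ) * I := by
      rw [hz]; push_cast; ring
    rw [this]
    refine (norm_add_le _ _).trans_lt ?_
    rw [norm_mul, Complex.norm_I, mul_one, Complex.norm_real, Real.norm_eq_abs]
    linarith
  have hconj : ∀ s ∈ ball (t0 : ℂ) (ρ / 2), conj s ∈ ball (t0 : ℂ) (ρ / 2) := by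
    intro s hs
    rw [mem_ball_iff_norm] at hs ⊢
    rw [← Complex.norm_conj]
    simpa using hs
  let ψ : ℂ → ℂ := fun s => ∑ i, f i (s + z * I) * conj (g i (conj s + z * I))
  have hψ : DifferentiableOn ℂ ψ (ball (t0 : ℂ) (ρ / 2)) := by
    intro s hs
    refine DifferentiableAt.differentiableWithinAt ?_
    refine DifferentiableAt.fun_sum fun i _ => DifferentiableAt.mul ?_ ?_
    · exact ((hf i).differentiableAt (isOpen_ball.mem_nhds (hmem s hs))).comp s
        (differentiableAt_id.add_const _)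
    · have h1 : DifferentiableAt ℂ (fun w => g i (w + z * I)) (conj s) :=
        ((hg i).differentiableAt (isOpen_ball.mem_nhds (hmem _ (hconj s hs)))).comp (conj s)
          (differentiableAt_id.add_const _)
      have h2 := h1.conj_conj
      rw [Complex.conj_conj] at h2
      exact h2
  have ha : AnalyticOnNhd ℂ ψ (ball (t0 : ℂ) (ρ / 2)) := hψ.analyticOnNhd isOpen_ball
  have hfr : ∃ᶠ s in 𝓝[≠] (t0 : ℂ), ψ s = (G (z * I) : ℂ) := by
    have ht : Tendsto (fun t : ℝ => (t : ℂ)) (𝓝[≠] t0) (𝓝[≠] (t0 : ℂ)) := by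
      refine tendsto_nhdsWithin_iff.2 ⟨?_, ?_⟩
      · exact (Complex.continuous_ofReal.tendsto t0).mono_left nhdsWithin_le_nhds
      · filter_upwards [self_mem_nhdsWithin] with t ht
        simpa using ht
    refine ht.frequently (Eventually.frequently ?_)
    have h3 : ∀ᶠ t : ℝ in 𝓝[≠] t0, (t : ℂ) ∈ ball (t0 : ℂ) (ρ / 2) :=
      (ht.mono_right nhdsWithin_le_nhds).eventually (ball_mem_nhds _ (by linarith))
    filter_upwards [h3] with t h3
    simp only [ψ, Complex.conj_ofReal]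
    rw [← hG _ (hmem _ h3), add_comm, hinv]
  have heq := ha.eqOn_of_preconnected_of_frequently_eq (g := fun _ => (G (z * I) : ℂ))
    (fun _ _ => analyticAt_const) (convex_ball _ _).isPreconnected
    (mem_ball_self (by linarith)) hfr
  have hs : (t0 : ℂ) + ((α - β : ℝ) : ℂ) * I ∈ ball (t0 : ℂ) (ρ / 2) := by
    rw [mem_ball_iff_norm, add_sub_cancel_left, norm_mul, Complex.norm_I, mul_one,
      Complex.norm_real, Real.norm_eq_abs]
    exact (abs_sub _ _).trans_lt (by linarith)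
  have h5 := heq hs
  simp only [ψ] at h5
  rw [← h5]
  refine Finset.sum_congr rfl fun i _ => ?_
  congr 2
  · rw [hz]; push_cast; ring
  · congr 1
    rw [hz]
    simp only [map_add, map_mul, Complex.conj_ofReal, Complex.conj_I]
    push_cast; ring

end

/-- the determinant identity along one orbit -/
theorem det_translate {b : ℕ} {G : ℂ → ℝ} (hinv : ∀ (u : ℂ) (t : ℝ), G (u + t) = G u)
    {h : ℂ → ℂ} (hh : Differentiable ℂ h) (h0 : h 0 ≠ 0)
    (hloc : ∀ u0, h u0 ≠ 0 → ∃ ρ > 0, ∃ f g : Fin b → ℂ → ℂ,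
      (∀ i, DifferentiableOn ℂ (f i) (ball u0 ρ)) ∧ (∀ i, DifferentiableOn ℂ (g i) (ball u0 ρ)) ∧
      ∀ u ∈ ball u0 ρ, (G u : ℂ) = ∑ i, f i u * conj (g i u))
    (x t : Fin (b + 1) → ℝ) :
    (Matrix.of fun i j => G ((x i + t j : ℝ) * I)).det = 0 := by
  have han : ∀ x0 : ℝ, AnalyticAt ℝ (fun y : ℝ => G (y * I)) x0 := fun x0 => by
    obtain ⟨t0, ht0⟩ := exists_real_ne_zero hh h0 x0
    obtain ⟨ρ, hρ, f, g, hf, hg, hG⟩ := hloc _ ht0
    have := analyticAt_of_sum hρ hf hg hG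
    simpa only [add_comm (t0 : ℂ), hinv] using this
  let D : ℝ → ℝ := fun s => (Matrix.of fun i j => G ((s * x i + s * t j : ℝ) * I)).det
  have hD : AnalyticOnNhd ℝ D Set.univ := fun s _ => by
    simp only [D, Matrix.det_apply', Matrix.of_apply]
    refine Finset.analyticAt_fun_sum _ fun σ _ => analyticAt_const.mul ?_
    refine Finset.analyticAt_fun_prod _ fun i _ => ?_
    exact AnalyticAt.comp (f := fun s : ℝ => s * x (σ i) + s * t i) (han _) (by fun_prop)
  obtain ⟨ρ, hρ, f, g, hf, hg, hG⟩ := hloc 0 h0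
  have e0 : (0 : ℂ) = ((0 : ℝ) : ℂ) + (0 : ℝ) * I := by simp
  rw [e0] at hf hg hG
  have hsmall : ∀ y : Fin (b + 1) → ℝ, ∀ᶠ s : ℝ in 𝓝 0, ∀ i, |s * y i| < ρ / 4 := fun y => by
    rw [eventually_all]
    intro i
    have : Tendsto (fun s : ℝ => |s * y i|) (𝓝 0) (𝓝 |0 * y i|) :=
      (Continuous.tendsto (by fun_prop) 0)
    rw [zero_mul, abs_zero] at this
    exact this.eventually (gt_mem_nhds (by linarith))
  have hev : D =ᶠ[𝓝 0] 0 := by
    filter_upwards [hsmall x, hsmall t] with s hx ht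
    have h1 : ((D s : ℝ) : ℂ) = 0 := by
      have h2 := RingHom.map_det Complex.ofRealHom
        (Matrix.of fun i j => G ((s * x i + s * t j : ℝ) * I))
      rw [show ((D s : ℝ) : ℂ) = Complex.ofRealHom (D s) from rfl, h2,
        ← det_mul_eq_zero
          (Matrix.of fun i k => f k ((0 : ℝ) + ((0 : ℝ) + 2 * ((s * x i : ℝ) : ℂ)) * I))
          (Matrix.of fun k j => conj (g k ((0 : ℝ) + ((0 : ℝ) + 2 * ((s * t j : ℝ) : ℂ)) * I)))]
      congr 1
      ext i j
      have h3 := polar hinv hf hg hG (hx i) (ht j)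
      rw [zero_add] at h3
      simpa only [RingHom.mapMatrix_apply, Matrix.map_apply, Matrix.of_apply, Matrix.mul_apply,
        Complex.ofRealHom_eq_coe] using h3
    exact_mod_cast h1
  have h1 := hD.eqOn_zero_of_preconnected_of_eventuallyEq_zero isPreconnected_univ
    (Set.mem_univ 0) hev (Set.mem_univ 1)
  simpa only [D, one_mul, Pi.zero_apply] using h1

end Iso
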