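import Mathlib

/-! One parameter groups in closed sets of operators. -/

namespace Iso

open Filter Topology NormedSpace Asymptotics

section Alg
variable {A : Type*} [NormedRing A]

lemma norm_pow_le_of (h1 : ‖(1 : A)‖ ≤ 1) {a : A} {M : ℝ} (ha : ‖a‖ ≤ M) (n : ℕ) :
    ‖a ^ n‖ ≤ M ^ n := by
  have hM : 0 ≤ M := (norm_nonneg _).trans ha
  induction n with
  | zero => simpa using h1
  | succ n ih =>
    rw [pow_succ, pow_succ]
    exact (norm_mul_le _ _).trans (by gcongr)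

lemma norm_pow_sub_pow_le_of (h1 : ‖(1 : A)‖ ≤ 1) {a b : A} {M : ℝ} (hM : 1 ≤ M) (ha : ‖a‖ ≤ M)
    (hb : ‖b‖ ≤ M) (n : ℕ) : ‖a ^ n - b ^ n‖ ≤ n * M ^ n * ‖a - b‖ := by
  induction n with
  | zero => simp
  | succ n ih =>
    have e : a ^ (n + 1) - b ^ (n + 1) = a * (a ^ n - b ^ n) + (a - b) * b ^ n := by
      rw [pow_succ', pow_succ']; noncomm_ring
    have h2 := norm_pow_le_of h1 hb n
    have h3 : M ^ n ≤ M ^ (n + 1) := pow_le_pow_right₀ hM (Nat.le_succ n)
    have h4 : ‖a * (a ^ n - b ^ n)‖ ≤ M * (n * M ^ n * ‖a - b‖) :=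
      (norm_mul_le _ _).trans (by gcongr)
    have h5 : ‖(a - b) * b ^ n‖ ≤ ‖a - b‖ * M ^ (n + 1) :=
      (norm_mul_le _ _).trans (by gcongr; exact h2.trans h3)
    rw [e]
    refine (norm_add_le _ _).trans ((add_le_add h4 h5).trans (le_of_eq ?_))
    push_cast; ring

variable [NormedAlgebra ℝ A] [NormedAlgebra ℚ A] [CompleteSpace A]

lemma pow_tendsto_exp (h1 : ‖(1 : A)‖ ≤ 1) {B : ℕ → A} {n : ℕ → ℕ} {Y : A}
    (hB : Tendsto B atTop (𝓝 0)) (hY : Tendsto (fun k => n k • B k) atTop (𝓝 Y)) :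
    Tendsto (fun k => (1 + B k) ^ n k) atTop (𝓝 (exp Y)) := by
  have h2 : Tendsto (fun k => exp (B k) ^ n k) atTop (𝓝 (exp Y)) := by
    simpa only [exp_nsmul] using hY.exp
  have h3 : Tendsto (fun k => (1 + B k) ^ n k - exp (B k) ^ n k) atTop (𝓝 0) := by
    have ho : (fun k => exp (B k) - (1 + B k)) =o[atTop] B := by
      have := (hasFDerivAt_exp_zero (𝕂 := ℝ) (𝔸 := A)).isLittleO.comp_tendsto hB
      simpa [Function.comp_def, sub_sub] using this
    set C := ‖Y‖ + 1 with hC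
    have hC0 : 0 < C := by positivity
    have hb : ∀ᶠ k in atTop, (n k : ℝ) * ‖B k‖ ≤ C := by
      filter_upwards [hY.norm.eventually (ge_mem_nhds (lt_add_one ‖Y‖))] with k hk
      rwa [← Nat.cast_smul_eq_nsmul ℝ, norm_smul, Real.norm_natCast] at hk
    rw [NormedAddGroup.tendsto_nhds_zero]
    intro ε hε
    set c := min 1 (ε / 2 / (C * Real.exp (2 * C))) with hc
    have hc0 : 0 < c := by positivity
    filter_upwards [hb, isLittleO_iff.1 ho hc0] with k hk hk2
    have hn := norm_nonneg (B k)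
    have ha : ‖1 + B k‖ ≤ 1 + ‖B k‖ := (norm_add_le _ _).trans (by gcongr)
    have hc1 : c * ‖B k‖ ≤ ‖B k‖ := mul_le_of_le_one_left hn (min_le_left _ _)
    have hb' : ‖exp (B k)‖ ≤ 1 + 2 * ‖B k‖ := by
      have := norm_add_le (exp (B k) - (1 + B k)) (1 + B k)
      rw [sub_add_cancel] at this
      linarith
    have h4 := norm_pow_sub_pow_le_of h1 (M := 1 + 2 * ‖B k‖) (by linarith)
      (ha.trans (by linarith)) hb' (n k)
    have h5 : (1 + 2 * ‖B k‖) ^ n k ≤ Real.exp (2 * C) := by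
      calc (1 + 2 * ‖B k‖) ^ n k ≤ Real.exp (2 * ‖B k‖) ^ n k := by
            gcongr
            linarith [Real.add_one_le_exp (2 * ‖B k‖)]
        _ = Real.exp (2 * (n k * ‖B k‖)) := by rw [← Real.exp_nat_mul]; ring_nf
        _ ≤ Real.exp (2 * C) := by gcongr
    rw [norm_sub_rev] at hk2
    have h6 : c * (C * Real.exp (2 * C)) ≤ ε / 2 :=
      (le_div_iff₀ (by positivity)).1 (min_le_right _ _)
    calc ‖(1 + B k) ^ n k - exp (B k) ^ n k‖
        ≤ n k * Real.exp (2 * C) * (c * ‖B k‖) := h4.trans (by gcongr)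
      _ = c * ((n k * ‖B k‖) * Real.exp (2 * C)) := by ring
      _ ≤ c * (C * Real.exp (2 * C)) := by gcongr
      _ < ε := by linarith
  simpa using h3.add h2

/-- a closed monoid that accumulates at `1` contains a one parameter semigroup -/
lemma exists_one_param [ProperSpace A] (h1 : ‖(1 : A)‖ ≤ 1) {S : Set A} (hS : IsClosed S)
    (hone : (1 : A) ∈ S) (hmul : ∀ a ∈ S, ∀ b ∈ S, a * b ∈ S) {g : ℕ → A} (hg : ∀ k, g k ∈ S)
    (hne : ∀ k, g k ≠ 1) (hlim : Tendsto g atTop (𝓝 1)) :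
    ∃ X : A, X ≠ 0 ∧ ∀ t : ℝ, 0 ≤ t → exp (t • X) ∈ S := by
  have hpos : ∀ k, 0 < ‖g k - 1‖ := fun k => norm_pos_iff.2 (sub_ne_zero.2 (hne k))
  have hsph : ∀ k, ‖g k - 1‖⁻¹ • (g k - 1) ∈ Metric.sphere (0 : A) 1 := fun k => by
    rw [mem_sphere_zero_iff_norm, norm_smul, norm_inv, norm_norm, inv_mul_cancel₀ (hpos k).ne']
  obtain ⟨X, hX, φ, hφ, hlimX⟩ := (isCompact_sphere (0 : A) 1).tendsto_subseq hsph
  rw [mem_sphere_zero_iff_norm] at hX
  refine ⟨X, fun h => by simp [h] at hX, fun t ht => ?_⟩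
  have hB : Tendsto (fun k => g (φ k) - 1) atTop (𝓝 0) := by
    simpa using (hlim.comp hφ.tendsto_atTop).sub_const 1
  let δ : ℕ → ℝ := fun k => ‖g (φ k) - 1‖
  have hδ : Tendsto δ atTop (𝓝 0) := by simpa using hB.norm
  let n : ℕ → ℕ := fun k => ⌊t / δ k⌋₊
  have hn : Tendsto (fun k => (n k : ℝ) * δ k) atTop (𝓝 t) := by
    have hl : Tendsto (fun k => t - δ k) atTop (𝓝 t) := by simpa using hδ.const_sub t
    refine tendsto_of_tendsto_of_tendsto_of_le_of_le hl tendsto_const_nhds (fun k => ?_)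
      fun k => ?_
    · have := (div_lt_iff₀ (hpos (φ k))).1 (Nat.lt_floor_add_one (t / δ k))
      simp only [n, δ] at this ⊢
      linarith
    · exact (le_div_iff₀ (hpos (φ k))).1 (Nat.floor_le (div_nonneg ht (hpos (φ k)).le))
  have hY : Tendsto (fun k => n k • (g (φ k) - 1)) atTop (𝓝 (t • X)) := by
    refine (hn.smul hlimX).congr fun k => ?_
    simp only [Function.comp_def, δ, smul_smul]
    rw [mul_assoc, mul_inv_cancel₀ (hpos _).ne', mul_one, Nat.cast_smul_eq_nsmul]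
  refine hS.mem_of_tendsto (pow_tendsto_exp h1 hB hY) (Eventually.of_forall fun k => ?_)
  rw [add_sub_cancel]
  induction n k with
  | zero => simpa using hone
  | succ m ih => rw [pow_succ]; exact hmul _ ih _ (hg _)

end Alg

variable {E : Type*} [NormedAddCommGroup E] [NormedSpace ℂ E] [CompleteSpace E]

lemma exp_smul_one (c : ℂ) : exp (c • (1 : E →L[ℂ] E)) = Complex.exp c • (1 : E →L[ℂ] E) := by
  rw [← Algebra.algebraMap_eq_smul_one, ← algebraMap_exp_comm, Algebra.algebraMap_eq_smul_one,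
    Complex.exp_eq_exp_ℂ]

/-- the exponential on a Jordan chain of length at most two -/
lemma exp_apply_of {X : E →L[ℂ] E} {l : ℂ} {v w : E} (hv : X v = l • v + w) (hw : X w = l • w)
    (u : ℂ) : exp (u • X) v = Complex.exp (u * l) • (v + u • w) := by
  let Y : E →L[ℂ] E := u • (X - l • 1)
  have hYv : Y v = u • w := by simp [Y, hv]
  have hYw : Y w = 0 := by simp [Y, hw]
  have e : u • X = (u * l) • (1 : E →L[ℂ] E) + Y := by
    simp only [Y, smul_sub, smul_smul]; abel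
  have hc : Commute ((u * l) • (1 : E →L[ℂ] E)) Y := (Commute.one_left Y).smul_left _
  have hs := (exp_series_hasSum_exp' (𝕂 := ℂ) Y).mapL (ContinuousLinearMap.apply ℂ E v)
  have hz : ∀ n ∉ Finset.range 2,
      ContinuousLinearMap.apply ℂ E v (((n.factorial : ℂ)⁻¹) • Y ^ n) = 0 := by
    intro n hn
    obtain ⟨m, rfl⟩ := Nat.exists_eq_add_of_le' (not_lt.1 (mt Finset.mem_range.2 hn))
    simp [pow_succ, hYv, hYw]
  have h2 := hs.unique (hasSum_sum_of_ne_finset_zero hz)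
  letI : NormedAlgebra ℚ (E →L[ℂ] E) := NormedAlgebra.restrictScalars ℚ ℂ _
  rw [e, exp_add_of_commute hc, exp_smul_one]
  simp only [ContinuousLinearMap.apply_apply, Finset.sum_range_succ, Finset.range_zero,
    Finset.sum_empty] at h2
  simp [h2, hYv]

end Iso
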