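import Mathlib
import Pool.Agent.Lib.MP_5c318e_ag.I.IsoA
import Pool.Agent.Lib.MP_5c318e_ag.I.IsoB
import Pool.Agent.Lib.MP_5c318e_ag.I.IsoC

/-! A one parameter group of isometries of a strict `p`-norm of finite hermitian rank is scalar. -/

namespace Iso

open Filter Topology NormedSpace Metric ComplexConjugate Complex

variable {E : Type*} [NormedAddCommGroup E] [NormedSpace ℂ E]

/-- homogeneous of degree `p` and strictly subadditive -/
structure PN (N : E → ℝ) (p : ℝ) : Prop where
  hp : 0 < p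
  hom : ∀ (c : ℂ) (a : E), N (c • a) = ‖c‖ ^ p * N a
  strict : ∀ a b : E, a ≠ 0 → b ≠ 0 → N (a + b) < N a + N b

/-- off the zero set of `Del`, locally a sum of `b` products of a holomorphic and an
antiholomorphic function -/
def HermRank (N : E → ℝ) (Del : E → ℂ) (b : ℕ) : Prop :=
  ∀ a0, Del a0 ≠ 0 → ∃ U ∈ 𝓝 a0, ∃ f g : Fin b → E → ℂ, (∀ i, DifferentiableOn ℂ (f i) U) ∧
    (∀ i, DifferentiableOn ℂ (g i) U) ∧ ∀ a ∈ U, (N a : ℂ) = ∑ i, f i a * conj (g i a)

variable {N : E → ℝ} {p : ℝ}

lemma PN.zero (h : PN N p) : N 0 = 0 := by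
  have := h.hom 0 0
  simpa [Real.zero_rpow h.hp.ne'] using this

lemma PN.neg (h : PN N p) (a : E) : N (-a) = N a := by
  have := h.hom (-1) a
  simpa using this

lemma PN.sub (h : PN N p) (a b : E) : N (a + b) ≤ N a + N b := by
  rcases eq_or_ne a 0 with rfl | ha
  · simp [h.zero]
  rcases eq_or_ne b 0 with rfl | hb
  · simp [h.zero]
  exact (h.strict a b ha hb).le

lemma PN.pos (h : PN N p) {a : E} (ha : a ≠ 0) : 0 < N a := by
  have := h.strict a (-a) ha (neg_ne_zero.2 ha)
  rw [add_neg_cancel, h.zero, h.neg] at this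
  linarith

lemma PN.nonneg (h : PN N p) (a : E) : 0 ≤ N a := by
  rcases eq_or_ne a 0 with rfl | ha
  · exact h.zero.ge
  exact (h.pos ha).le

lemma PN.abs_le (h : PN N p) (a b : E) : |N (a + b) - N a| ≤ N b := by
  have h1 := h.sub a b
  have h2 := h.sub (a + b) (-b)
  rw [add_neg_cancel_right, h.neg] at h2
  rw [_root_.abs_le]
  constructor <;> linarith

lemma PN.sum_le (h : PN N p) {ι : Type*} (s : Finset ι) (f : ι → E) :
    N (∑ i ∈ s, f i) ≤ ∑ i ∈ s, N (f i) :=
  Finset.le_sum_of_subadditive N h.zero.le h.sub s f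

variable [FiniteDimensional ℂ E]

lemma PN.continuous (h : PN N p) : Continuous N := by
  let B := Module.finBasis ℂ E
  let K : E → ℝ := fun x => ∑ i, ‖B.repr x i‖ ^ p * N (B i)
  have hK : Continuous K := continuous_finsetSum _ fun i _ =>
    (((B.coord i).continuous_of_finiteDimensional.norm).rpow_const fun _ => Or.inr h.hp.le).mul
      continuous_const
  have hK0 : K 0 = 0 := by simp [K, Real.zero_rpow h.hp.ne']
  have hle : ∀ x, N x ≤ K x := fun x => by
    conv_lhs => rw [← B.sum_repr x]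
    exact (h.sum_le _ _).trans (le_of_eq (Finset.sum_congr rfl fun i _ => h.hom _ _))
  refine continuous_iff_continuousAt.2 fun a => ?_
  rw [ContinuousAt, tendsto_iff_norm_sub_tendsto_zero]
  have h1 : Tendsto (fun x => K (x - a)) (𝓝 a) (𝓝 0) := by
    have := (hK.comp (continuous_id.sub (continuous_const (y := a)))).tendsto a
    simpa [Function.comp_def, hK0] using this
  refine squeeze_zero (fun _ => norm_nonneg _) (fun x => ?_) h1
  have := h.abs_le a (x - a)
  rw [add_sub_cancel] at this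
  exact this.trans (hle _)

variable {X : E →L[ℂ] E}

lemma re_eq_zero (h : PN N p) (hX : ∀ (t : ℝ) a, N (exp ((t : ℂ) • X) a) = N a) {l : ℂ} {v : E}
    (hv0 : v ≠ 0) (hv : X v = l • v) : l.re = 0 := by
  have := FiniteDimensional.complete ℂ E
  have h1 := hX 1 v
  rw [exp_apply_of (l := l) (w := 0) (by simpa using hv) (by simp), h.hom] at h1
  simp only [ofReal_one, one_mul, smul_zero, add_zero, Complex.norm_exp] at h1
  have h2 : Real.exp l.re ^ p = 1 := by
    have := h.pos hv0
    field_simp at h1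
    exact h1
  rw [← Real.exp_mul, Real.exp_eq_one_iff] at h2
  exact (mul_eq_zero.1 h2).resolve_right h.hp.ne'

lemma jordan (h : PN N p) (hX : ∀ (t : ℝ) a, N (exp ((t : ℂ) • X) a) = N a) {l : ℂ} {v w : E}
    (hv : X v = l • v + w) (hw : X w = l • w) : w = 0 := by
  have := FiniteDimensional.complete ℂ E
  by_contra hw0
  have hl := re_eq_zero h hX hw0 hw
  have h1 : ∀ t : ℝ, 0 ≤ t → t ^ p * N w ≤ 2 * N v := fun t ht => by
    have h2 := hX t v
    rw [exp_apply_of hv hw, h.hom, Complex.norm_exp] at h2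
    simp only [mul_re, ofReal_re, hl, mul_zero, ofReal_im, zero_mul, sub_self, Real.exp_zero,
      Real.one_rpow, one_mul] at h2
    have h3 := h.sub (v + (t : ℂ) • w) (-v)
    rw [h.neg, h2, add_neg_cancel_comm, h.hom, Complex.norm_real, Real.norm_of_nonneg ht] at h3
    linarith
  have h4 : Tendsto (fun t : ℝ => t ^ p * N w) atTop atTop :=
    (tendsto_rpow_atTop h.hp).atTop_mul_const (h.pos hw0)
  obtain ⟨t, ht1, ht2⟩ := ((h4.eventually_gt_atTop (2 * N v)).and (eventually_ge_atTop 0)).exists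
  exact absurd (h1 t ht2) (not_le.2 ht1)

variable {Del : E → ℂ} {b : ℕ}

lemma det_orbit (h : PN N p) (hD : Differentiable ℂ Del) (hD0 : ∃ a, Del a ≠ 0)
    (hR : HermRank N Del b) (hX : ∀ (t : ℝ) a, N (exp ((t : ℂ) • X) a) = N a) (σ : E)
    (x t : Fin (b + 1) → ℝ) :
    (Matrix.of fun i j => N (exp ((((x i + t j : ℝ) : ℂ) * I) • X) σ)).det = 0 := by
  have := FiniteDimensional.complete ℂ E
  let _ : NormedAlgebra ℚ (E →L[ℂ] E) := NormedAlgebra.restrictScalars ℚ ℂ _
  have key : ∀ σ : E, Del σ ≠ 0 →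
      (Matrix.of fun i j => N (exp ((((x i + t j : ℝ) : ℂ) * I) • X) σ)).det = 0 := by
    intro σ hσ
    have hγ : Differentiable ℂ fun u : ℂ => exp (u • X) σ := fun u =>
      ((hasDerivAt_exp_smul_const (𝕂 := ℂ) X u).differentiableAt).clm_apply
        (differentiableAt_const σ)
    refine det_translate (G := fun u => N (exp (u • X) σ)) (h := fun u => Del (exp (u • X) σ))
      (fun u s => ?_) (hD.comp hγ) (by simpa using hσ) (fun u0 hu0 => ?_) x t
    · have hc : Commute ((s : ℂ) • X) (u • X) := ((Commute.refl X).smul_left _).smul_right _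
      rw [add_comm, add_smul, exp_add_of_commute hc, mul_apply_eq_comp, hX]
    · obtain ⟨U, hU, f, g, hf, hg, hN⟩ := hR _ hu0
      obtain ⟨ρ, hρ, hb⟩ := Metric.mem_nhds_iff.1 (hγ.continuous.continuousAt (x := u0) hU)
      exact ⟨ρ, hρ, fun i u => f i (exp (u • X) σ), fun i u => g i (exp (u • X) σ),
        fun i => (hf i).comp hγ.differentiableOn hb, fun i => (hg i).comp hγ.differentiableOn hb,
        fun u hu => hN _ (hb hu)⟩
  obtain ⟨a, ha⟩ := hD0
  have hl : Differentiable ℂ fun z : ℂ => σ + z • (a - σ) := by fun_prop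
  have hfr : ∃ᶠ z : ℂ in 𝓝 0, Del (σ + z • (a - σ)) ≠ 0 := by
    intro hev
    have han : AnalyticOnNhd ℂ (fun z : ℂ => Del (σ + z • (a - σ))) Set.univ :=
      fun z _ => (hD.comp hl).analyticAt z
    have := han.eqOn_zero_of_preconnected_of_eventuallyEq_zero isPreconnected_univ
      (Set.mem_univ 0) (hev.mono fun z hz => by simpa using hz) (Set.mem_univ 1)
    exact ha (by simpa using this)
  have hc : Continuous fun z : ℂ => (Matrix.of fun i j =>
      N (exp ((((x i + t j : ℝ) : ℂ) * I) • X) (σ + z • (a - σ)))).det :=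
    Continuous.matrix_det (continuous_matrix fun i j =>
      h.continuous.comp ((ContinuousLinearMap.continuous _).comp hl.continuous))
  have := isClosed_singleton.mem_of_frequently_of_tendsto (hfr.mono fun z hz => key _ hz)
    (hc.tendsto 0)
  simpa using this

lemma eigen_eq (h : PN N p) (hD : Differentiable ℂ Del) (hD0 : ∃ a, Del a ≠ 0)
    (hR : HermRank N Del b) (hX : ∀ (t : ℝ) a, N (exp ((t : ℂ) • X) a) = N a) {l m : ℂ} {v w : E}
    (hv0 : v ≠ 0) (hw0 : w ≠ 0) (hv : X v = l • v) (hw : X w = m • w) : l = m := by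
  have := FiniteDimensional.complete ℂ E
  by_contra hne
  have hl := re_eq_zero h hX hv0 hv
  have hm := re_eq_zero h hX hw0 hw
  set ρ : ℝ := l.im - m.im with hρ
  have hρ0 : ρ ≠ 0 := fun h0 => hne (Complex.ext (hl.trans hm.symm) (sub_eq_zero.1 h0))
  have hF : FD fun y : ℝ => N (exp (((y : ℂ) * I) • X) (v + w)) :=
    FD_of_det (det_orbit h hD hD0 hR hX (v + w))
  have e1 : ∀ {l : ℂ} {v : E}, l.re = 0 → X v = l • v → ∀ y : ℝ,
      exp (((y : ℂ) * I) • X) v = (Real.exp (-(l.im * y)) : ℂ) • v := fun {l v} hl hv y => by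
    rw [exp_apply_of (l := l) (w := 0) (by simpa using hv) (by simp), smul_zero, add_zero,
      ofReal_exp]
    congr 2
    apply Complex.ext <;> simp [hl, mul_comm]
  have e2 : ∀ (s : ℝ) (a : E), N ((Real.exp s : ℂ) • a) = Real.exp (s * p) * N a := fun s a => by
    rw [h.hom, Complex.norm_real, Real.norm_of_nonneg (Real.exp_pos s).le, Real.exp_mul]
  have e3 : (fun y : ℝ => Real.exp (l.im * p * y) * N (exp (((y : ℂ) * I) • X) (v + w)))
      = fun y : ℝ => N (v + (Real.exp (ρ * y) : ℂ) • w) := by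
    funext y
    rw [map_add, e1 hl hv, e1 hm hw, mul_right_comm, ← e2, smul_add, smul_smul, smul_smul,
      ← ofReal_mul, ← ofReal_mul, ← Real.exp_add, ← Real.exp_add]
    simp [hρ, sub_eq_add_neg, add_mul]
  have hG := hF.exp_mul (l.im * p)
  rw [e3] at hG
  have hc : Continuous fun y : ℝ => N (v + (Real.exp (ρ * y) : ℂ) • w) :=
    h.continuous.comp (by fun_prop)
  have := hG.eq_add hc (A := N v) (B := N w) (c := ρ * p) (mul_ne_zero hρ0 h.hp.ne')
    (fun y => by rw [mul_right_comm, ← e2]; exact h.abs_le _ _)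
    (fun y => by rw [mul_right_comm, ← e2, add_comm]; exact h.abs_le _ _)
  exact (h.strict v w hv0 hw0).ne (by simpa using this)

/-- the generator of a one parameter group of isometries is a scalar -/
theorem scalar_of_isom (h : PN N p) (hD : Differentiable ℂ Del) (hD0 : ∃ a, Del a ≠ 0)
    (hR : HermRank N Del b) (hX : ∀ (t : ℝ) a, N (exp ((t : ℂ) • X) a) = N a) :
    ∃ c : ℂ, X = c • 1 := by
  rcases subsingleton_or_nontrivial E with hE | hE
  · exact ⟨0, Subsingleton.elim _ _⟩
  let T : Module.End ℂ E := X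
  obtain ⟨l, hl⟩ := Module.End.exists_eigenvalue T
  obtain ⟨v, hv⟩ := hl.exists_hasEigenvector
  have hnil : ∀ (μ : ℂ) (k : ℕ) (a : E), ((T - μ • 1) ^ k) a = 0 → X a = μ • a := by
    intro μ k
    induction k with
    | zero => intro a ha; simp at ha; simp [ha]
    | succ k ih =>
      intro a ha
      rw [pow_succ, Module.End.mul_apply] at ha
      have h1 := jordan h hX (l := μ) (v := a) (w := (T - μ • 1) a) (by simp [T]) (ih _ ha)
      simpa [T, sub_eq_zero] using h1
  have htop : (⊤ : Submodule ℂ E) ≤ T.eigenspace l := by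
    rw [← Module.End.iSup_maxGenEigenspace_eq_top T]
    refine iSup_le fun μ a ha => ?_
    obtain ⟨k, hk⟩ := (Module.End.mem_maxGenEigenspace _ _ _).1 ha
    have h1 := hnil μ k a hk
    rcases eq_or_ne a 0 with rfl | ha0
    · exact Submodule.zero_mem _
    rw [Module.End.mem_eigenspace_iff, eigen_eq h hD hD0 hR hX hv.2 ha0 hv.apply_eq_smul h1]
    exact h1
  refine ⟨l, ContinuousLinearMap.ext fun a => ?_⟩
  simpa [T] using Module.End.mem_eigenspace_iff.1 (htop (Submodule.mem_top (x := a)))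

end Iso
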