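import Mathlib
import Pool.Agent.Lib.MP_5c318e_ag.I.IsoD

/-! The isometries of a strict `p`-norm of finite hermitian rank whose determinant is a root of
unity of bounded order form a finite set. -/

namespace Iso

open Filter Topology NormedSpace Metric ComplexConjugate Complex

variable {E : Type*} [NormedAddCommGroup E] [NormedSpace ℂ E] [FiniteDimensional ℂ E]
  {N : E → ℝ} {p : ℝ} {Del : E → ℂ} {b : ℕ}

/-- sublevel sets are bounded -/
lemma PN.exists_bound (h : PN N p) (C : ℝ) : ∃ R : ℝ, 0 ≤ R ∧ ∀ a, N a ≤ C → ‖a‖ ≤ R := by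
  have := FiniteDimensional.proper ℂ E
  obtain ⟨c, hc, hle⟩ := (isCompact_sphere (0 : E) 1).exists_forall_le' h.continuous.continuousOn
    (a := 0) fun a ha => h.pos (by rintro rfl; simp at ha)
  have h4 : Tendsto (fun t : ℝ => t ^ p * c) atTop atTop :=
    (tendsto_rpow_atTop h.hp).atTop_mul_const hc
  obtain ⟨R, hR⟩ := eventually_atTop.1 (h4.eventually_gt_atTop C)
  refine ⟨max R 0, le_max_right _ _, fun a ha => ?_⟩
  by_contra hlt
  rw [not_le, max_lt_iff] at hlt
  have h0 : (‖a‖ : ℂ) ≠ 0 := ofReal_ne_zero.2 hlt.2.ne'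
  have h1 := hle ((‖a‖ : ℂ)⁻¹ • a) (by simp [norm_smul, hlt.2.ne'])
  have h2 := h.hom (‖a‖ : ℂ) ((‖a‖ : ℂ)⁻¹ • a)
  rw [smul_inv_smul₀ h0, Complex.norm_real, norm_norm] at h2
  have h3 := hR _ hlt.1.le
  have h5 : ‖a‖ ^ p * c ≤ N a := by
    rw [h2]
    exact mul_le_mul_of_nonneg_left h1 (Real.rpow_nonneg (norm_nonneg _) _)
  linarith

/-- the isometries are bounded -/
lemma PN.isom_bound (h : PN N p) :
    ∃ R : ℝ, ∀ g : E →L[ℂ] E, (∀ a, N (g a) = N a) → ‖g‖ ≤ R := by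
  have := FiniteDimensional.proper ℂ E
  obtain ⟨C, hC⟩ := (isCompact_sphere (0 : E) 1).exists_bound_of_continuousOn
    h.continuous.continuousOn
  obtain ⟨R, hR0, hR⟩ := h.exists_bound C
  refine ⟨R, fun g hg => ContinuousLinearMap.opNorm_le_of_unit_norm hR0 fun a ha => hR _ ?_⟩
  rw [hg]
  exact (le_abs_self _).trans (hC a (by simpa using ha))

lemma PN.isUnit (h : PN N p) {g : E →L[ℂ] E} (hg : ∀ a, N (g a) = N a) : IsUnit g := by
  have := FiniteDimensional.complete ℂ E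
  rw [ContinuousLinearMap.isUnit_iff_isUnit_toLinearMap, LinearMap.isUnit_iff_ker_eq_bot,
    LinearMap.ker_eq_bot']
  intro a ha
  by_contra h0
  have h1 := h.pos h0
  rw [← hg, show g a = 0 from ha, h.zero] at h1
  exact lt_irrefl _ h1

omit [FiniteDimensional ℂ E] in
lemma det_mul' (f g : E →L[ℂ] E) : (f * g).det = f.det * g.det :=
  map_mul LinearMap.det (f : E →ₗ[ℂ] E) g

omit [FiniteDimensional ℂ E] in
lemma det_one' : (1 : E →L[ℂ] E).det = 1 := map_one LinearMap.det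

/-- finiteness of the isometry group cut by the determinant -/
theorem finite_isom (h : PN N p) (hD : Differentiable ℂ Del) (hD0 : ∃ a, Del a ≠ 0)
    (hR : HermRank N Del b) {M : ℕ} (hM : M ≠ 0) :
    {g : E →L[ℂ] E | (∀ a, N (g a) = N a) ∧ g.det ^ M = 1}.Finite := by
  have := FiniteDimensional.complete ℂ E
  have := FiniteDimensional.proper ℂ (E →L[ℂ] E)
  let _ : NormedAlgebra ℚ (E →L[ℂ] E) := NormedAlgebra.restrictScalars ℚ ℂ _
  set S := {g : E →L[ℂ] E | (∀ a, N (g a) = N a) ∧ g.det ^ M = 1} with hS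
  by_contra hinf
  have hcl : IsClosed S := by
    rw [hS, Set.ofPred_and, Set.ofPred_forall]
    exact (isClosed_iInter fun a => isClosed_eq (h.continuous.comp (by fun_prop))
      continuous_const).inter
      (isClosed_eq (ContinuousLinearMap.continuous_det.pow M) continuous_const)
  have hone : (1 : E →L[ℂ] E) ∈ S := ⟨fun _ => rfl, by rw [det_one', one_pow]⟩
  have hmul : ∀ f ∈ S, ∀ g ∈ S, f * g ∈ S := fun f hf g hg =>
    ⟨fun a => (hf.1 _).trans (hg.1 a), by rw [det_mul', mul_pow, hf.2, hg.2, one_mul]⟩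
  obtain ⟨R, hRb⟩ := h.isom_bound
  have hK : IsCompact S := (isCompact_closedBall (0 : E →L[ℂ] E) R).of_isClosed_subset hcl
    fun g hg => mem_closedBall_zero_iff.2 (hRb g hg.1)
  obtain ⟨g0, hg0, hacc⟩ := Set.Infinite.exists_accPt_of_subset_isCompact hinf hK subset_rfl
  obtain ⟨g, hg, hlim⟩ := mem_closure_iff_seq_limit.1
    (mem_closure_iff_frequently.2 (accPt_iff_frequently.1 hacc))
  obtain ⟨u, rfl⟩ := h.isUnit hg0.1
  have hu : ((u⁻¹ : (E →L[ℂ] E)ˣ) : E →L[ℂ] E) ∈ S := by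
    refine ⟨fun a => ?_, ?_⟩
    · rw [← hg0.1, ← mul_apply_eq_comp, u.mul_inv]; rfl
    · have := congrArg (fun f : E →L[ℂ] E => f.det ^ M) u.mul_inv
      simpa only [det_mul', mul_pow, hg0.2, one_mul, det_one', one_pow] using this
  obtain ⟨X, hX0, hX⟩ := exists_one_param ContinuousLinearMap.norm_id_le hcl hone hmul
    (g := fun k => g k * ((u⁻¹ : (E →L[ℂ] E)ˣ) : E →L[ℂ] E)) (fun k => hmul _ (hg k).2 _ hu)
    (fun k hk => (hg k).1 (Units.mul_inv_eq_one.1 hk))
    (by simpa using hlim.mul_const ((u⁻¹ : (E →L[ℂ] E)ˣ) : E →L[ℂ] E))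
  have hiso : ∀ (t : ℝ) a, N (exp ((t : ℂ) • X) a) = N a := by
    intro t a
    rw [Complex.coe_smul]
    rcases le_total 0 t with ht | ht
    · exact (hX t ht).1 a
    · have hc : Commute ((-t) • X) (t • X) := ((Commute.refl X).smul_left _).smul_right _
      rw [← (hX (-t) (neg_nonneg.2 ht)).1, ← mul_apply_eq_comp, ← exp_add_of_commute hc]
      simp
  obtain ⟨c, rfl⟩ := scalar_of_isom h hD hD0 hR hiso
  have hc0 : c ≠ 0 := by rintro rfl; exact hX0 (zero_smul _ _)
  have hE : Nontrivial E := by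
    by_contra hE
    rw [not_nontrivial_iff_subsingleton] at hE
    exact hX0 (Subsingleton.elim _ _)
  set w : ℂ := (M * Module.finrank ℂ E : ℕ) * c with hw
  have hw0 : w ≠ 0 := mul_ne_zero (Nat.cast_ne_zero.2 (mul_ne_zero hM Module.finrank_pos.ne')) hc0
  have hexp : ∀ t : ℝ, 0 ≤ t → Complex.exp (t * w) = 1 := fun t ht => by
    have h1 := (hX t ht).2
    rw [← Complex.coe_smul, smul_smul, exp_smul_one, ContinuousLinearMap.det,
      ContinuousLinearMap.toLinearMap_smul, LinearMap.det_smul] at h1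
    have h2 : LinearMap.det ((1 : E →L[ℂ] E) : E →ₗ[ℂ] E) = 1 := det_one'
    rw [h2, mul_one, ← pow_mul, ← Complex.exp_nat_mul] at h1
    rw [← h1, hw]
    push_cast
    ring_nf
  have hn : 0 < ‖w‖ := norm_pos_iff.2 hw0
  obtain ⟨n, hn1⟩ := Complex.exp_eq_one_iff.1 (hexp ‖w‖⁻¹ (by positivity))
  have h3 := congrArg norm hn1
  simp only [norm_mul, Complex.norm_real, norm_inv, norm_norm, inv_mul_cancel₀ hn.ne',
    Complex.norm_intCast, Complex.norm_I, mul_one, Complex.norm_ofNat,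
    Real.norm_of_nonneg Real.pi_pos.le] at h3
  rcases eq_or_ne n 0 with rfl | hn0
  · simp at h3
  · have h4 : (1 : ℝ) ≤ |(n : ℝ)| := by exact_mod_cast Int.one_le_abs hn0
    nlinarith [Real.pi_gt_three]

/-- the same for matrices -/
theorem finite_isom_matrix {ι : Type*} [Fintype ι] [DecidableEq ι] {N : (ι → ℂ) → ℝ}
    {Del : (ι → ℂ) → ℂ} (h : PN N p) (hD : Differentiable ℂ Del) (hD0 : ∃ a, Del a ≠ 0)
    (hR : HermRank N Del b) {M : ℕ} (hM : M ≠ 0) :
    {A : Matrix ι ι ℂ | (∀ a, N (A.mulVec a) = N a) ∧ A.det ^ M = 1}.Finite := by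
  let F : Matrix ι ι ℂ → (ι → ℂ) →L[ℂ] (ι → ℂ) := fun A =>
    LinearMap.toContinuousLinearMap (Matrix.toLin' A)
  have hF : Function.Injective F :=
    LinearMap.toContinuousLinearMap.injective.comp Matrix.toLin'.injective
  refine ((finite_isom h hD hD0 hR hM).preimage hF.injOn).subset fun A hA => ⟨hA.1, ?_⟩
  rw [← hA.2, ← LinearMap.det_toLin']
  rfl

/-- the determinant of an isometry is unimodular -/
lemma PN.norm_det (h : PN N p) {g : E →L[ℂ] E} (hg : ∀ a, N (g a) = N a) : ‖g.det‖ = 1 := by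
  have := FiniteDimensional.proper ℂ (E →L[ℂ] E)
  obtain ⟨R, hR⟩ := h.isom_bound
  obtain ⟨C, hC⟩ := (isCompact_closedBall (0 : E →L[ℂ] E) R).exists_bound_of_continuousOn
    ContinuousLinearMap.continuous_det.continuousOn
  have hle : ∀ f : E →L[ℂ] E, (∀ a, N (f a) = N a) → ‖f.det‖ ≤ 1 := fun f hf => by
    have hk : ∀ k : ℕ, (∀ a, N ((f ^ k) a) = N a) ∧ (f ^ k).det = f.det ^ k := fun k => by
      induction k with
      | zero => exact ⟨fun _ => rfl, by rw [pow_zero, pow_zero, det_one']⟩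
      | succ k ih =>
        exact ⟨fun a => by rw [pow_succ, mul_apply_eq_comp, ih.1, hf],
          by rw [pow_succ, det_mul', ih.2, pow_succ]⟩
    by_contra hlt
    obtain ⟨k, hk1⟩ := ((tendsto_pow_atTop_atTop_of_one_lt (not_le.1 hlt)).eventually_gt_atTop
      C).exists
    have := hC _ (mem_closedBall_zero_iff.2 (hR _ (hk k).1))
    rw [(hk k).2, norm_pow] at this
    linarith
  obtain ⟨u, rfl⟩ := h.isUnit hg
  have h1 := hle _ hg
  have h2 := hle ((u⁻¹ : (E →L[ℂ] E)ˣ) : E →L[ℂ] E) fun a => by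
    rw [← hg, ← mul_apply_eq_comp, u.mul_inv]; rfl
  have h3 := congrArg (fun f : E →L[ℂ] E => ‖f.det‖) u.mul_inv
  simp only [det_mul', norm_mul, det_one', norm_one] at h3
  nlinarith [norm_nonneg (u : E →L[ℂ] E).det]

/-- every isometry is a unimodular scalar times an element of one finite set -/
theorem finite_isom_mod_scalar (h : PN N p) (hD : Differentiable ℂ Del) (hD0 : ∃ a, Del a ≠ 0)
    (hR : HermRank N Del b) :
    ∃ T : Set (E →L[ℂ] E), T.Finite ∧ ∀ g : E →L[ℂ] E, (∀ a, N (g a) = N a) →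
      ∃ c : ℂ, ‖c‖ = 1 ∧ ∃ g' ∈ T, g = c • g' := by
  refine ⟨_, finite_isom h hD hD0 hR one_ne_zero, fun g hg => ?_⟩
  rcases subsingleton_or_nontrivial E with hE | hE
  · exact ⟨1, norm_one, 1, ⟨fun _ => rfl, by rw [det_one', one_pow]⟩, Subsingleton.elim _ _⟩
  have hr : 0 < Module.finrank ℂ E := Module.finrank_pos
  obtain ⟨c, hc⟩ := IsAlgClosed.exists_pow_nat_eq g.det hr
  have hc1 : ‖c‖ = 1 := by
    have := h.norm_det hg
    rw [← hc, norm_pow] at this
    exact (pow_eq_one_iff_of_nonneg (norm_nonneg c) hr.ne').1 this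
  have hc0 : c ≠ 0 := by rintro rfl; simp at hc1
  refine ⟨c, hc1, c⁻¹ • g, ⟨fun a => ?_, ?_⟩, (smul_inv_smul₀ hc0 g).symm⟩
  · rw [smul_apply, h.hom, hg]; simp [hc1]
  · rw [pow_one, ContinuousLinearMap.det, ContinuousLinearMap.toLinearMap_smul,
      LinearMap.det_smul, inv_pow, hc]
    exact inv_mul_cancel₀ (hc ▸ pow_ne_zero _ hc0)

end Iso
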