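import Mathlib
import Pool.Agent.Lib.MP_5c318e_ag.I.IsoE

/-! The integral of the `p`-th power of a linear family of functions is a strict `p`-norm when
`0 < p < 1`. -/

namespace Iso

open Filter Topology MeasureTheory

lemma add_rpow_lt {x y p : ℝ} (hx : 0 < x) (hy : 0 < y) (hp1 : p < 1) :
    (x + y) ^ p < x ^ p + y ^ p := by
  have e : ∀ z : ℝ, 0 < z → z ^ p = z * z ^ (p - 1) := fun z hz => by
    rw [Real.rpow_sub_one hz.ne']; field_simp
  have h1 : (x + y) ^ (p - 1) < x ^ (p - 1) :=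
    Real.rpow_lt_rpow_of_neg hx (by linarith) (by linarith)
  have h2 : (x + y) ^ (p - 1) < y ^ (p - 1) :=
    Real.rpow_lt_rpow_of_neg hy (by linarith) (by linarith)
  rw [e _ hx, e _ hy, e _ (add_pos hx hy), add_mul]
  exact add_lt_add (mul_lt_mul_of_pos_left h1 hx) (mul_lt_mul_of_pos_left h2 hy)

variable {E : Type*} [NormedAddCommGroup E] [NormedSpace ℂ E]
  {F : Type*} [NormedAddCommGroup F] [NormedSpace ℂ F]
  {Ω : Type*} [MeasurableSpace Ω] {μ : Measure Ω} {p : ℝ}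

omit [NormedSpace ℂ F] in
lemma norm_add_rpow_le (hp0 : 0 < p) (hp1 : p < 1) (u v : F) :
    ‖u + v‖ ^ p ≤ ‖u‖ ^ p + ‖v‖ ^ p :=
  (Real.rpow_le_rpow (norm_nonneg _) (norm_add_le u v) hp0.le).trans
    (Real.rpow_add_le_add_rpow (norm_nonneg _) (norm_nonneg _) hp0.le hp1.le)

omit [NormedSpace ℂ F] in
lemma norm_add_rpow_lt (hp0 : 0 < p) (hp1 : p < 1) {u v : F} (hu : u ≠ 0) (hv : v ≠ 0) :
    ‖u + v‖ ^ p < ‖u‖ ^ p + ‖v‖ ^ p :=
  (Real.rpow_le_rpow (norm_nonneg _) (norm_add_le u v) hp0.le).trans_lt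
    (add_rpow_lt (norm_pos_iff.2 hu) (norm_pos_iff.2 hv) hp1)

/-- two nonzero vectors give functions with a common support of positive measure -/
theorem PN.of_integral (hp0 : 0 < p) (hp1 : p < 1) (s : E →ₗ[ℂ] (Ω → F))
    (hint : ∀ a, Integrable (fun x => ‖s a x‖ ^ p) μ)
    (hne : ∀ a b, a ≠ 0 → b ≠ 0 → μ {x | s a x ≠ 0 ∧ s b x ≠ 0} ≠ 0) :
    PN (fun a => ∫ x, ‖s a x‖ ^ p ∂μ) p := by
  refine ⟨hp0, fun c a => ?_, fun a b ha hb => ?_⟩
  · rw [← integral_const_mul]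
    refine integral_congr_ae (Eventually.of_forall fun x => ?_)
    simp only [map_smul, Pi.smul_apply, norm_smul]
    exact Real.mul_rpow (norm_nonneg _) (norm_nonneg _)
  · have hab : Integrable (fun x => ‖s a x‖ ^ p + ‖s b x‖ ^ p) μ := (hint a).add (hint b)
    rw [← integral_add (hint a) (hint b), ← sub_pos, ← integral_sub hab (hint (a + b))]
    refine (integral_pos_iff_support_of_nonneg (fun x => ?_) (hab.sub (hint (a + b)))).2
      ((pos_iff_ne_zero.2 (hne a b ha hb)).trans_le (measure_mono fun x hx => ?_))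
    · simpa using norm_add_rpow_le hp0 hp1 (s a x) (s b x)
    · have := norm_add_rpow_lt hp0 hp1 hx.1 hx.2
      simpa [sub_eq_zero] using this.ne'

/-- nonzero vectors give functions that vanish almost nowhere -/
theorem PN.of_integral_ae (hp0 : 0 < p) (hp1 : p < 1) (hμ : μ ≠ 0) (s : E →ₗ[ℂ] (Ω → F))
    (hint : ∀ a, Integrable (fun x => ‖s a x‖ ^ p) μ)
    (hne : ∀ a, a ≠ 0 → ∀ᵐ x ∂μ, s a x ≠ 0) : PN (fun a => ∫ x, ‖s a x‖ ^ p ∂μ) p := by
  refine PN.of_integral hp0 hp1 s hint fun a b ha hb h0 => hμ ?_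
  have h1 : ∀ᵐ x ∂μ, ¬(s a x ≠ 0 ∧ s b x ≠ 0) := by simpa only [ae_iff, not_not] using h0
  rw [← ae_eq_bot, ← eventually_false_iff_eq_bot]
  filter_upwards [h1, hne a ha, hne b hb] with x h2 h3 h4 using h2 ⟨h3, h4⟩

/-- continuous functions on a space where nonempty open sets have positive measure -/
theorem PN.of_integral_open [TopologicalSpace Ω] [μ.IsOpenPosMeasure] (hp0 : 0 < p) (hp1 : p < 1)
    (s : E →ₗ[ℂ] (Ω → F)) (hc : ∀ a, Continuous (s a))
    (hint : ∀ a, Integrable (fun x => ‖s a x‖ ^ p) μ)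
    (hne : ∀ a b, a ≠ 0 → b ≠ 0 → ∃ x, s a x ≠ 0 ∧ s b x ≠ 0) :
    PN (fun a => ∫ x, ‖s a x‖ ^ p ∂μ) p :=
  PN.of_integral hp0 hp1 s hint fun a b ha hb =>
    IsOpen.measure_ne_zero μ ((isOpen_ne_fun (hc a) continuous_const).inter
      (isOpen_ne_fun (hc b) continuous_const)) (hne a b ha hb)

/-- integrability of all combinations from that of the generators -/
lemma integrable_comb {ι : Type*} [Fintype ι] (hp0 : 0 < p) (hp1 : p < 1) {s : ι → Ω → F}
    (hm : ∀ i, AEStronglyMeasurable (s i) μ) (hint : ∀ i, Integrable (fun x => ‖s i x‖ ^ p) μ)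
    (a : ι → ℂ) : Integrable (fun x => ‖∑ i, a i • s i x‖ ^ p) μ := by
  have h1 : AEStronglyMeasurable (fun x => ∑ i, a i • s i x) μ :=
    Finset.aestronglyMeasurable_fun_sum _ fun i _ => (hm i).const_smul (a i)
  refine (integrable_finsetSum Finset.univ fun i _ => (hint i).const_mul (‖a i‖ ^ p)).mono'
    ((h1.norm.aemeasurable.pow_const p).aestronglyMeasurable) (Eventually.of_forall fun x => ?_)
  rw [Real.norm_of_nonneg (Real.rpow_nonneg (norm_nonneg _) _)]
  refine (Finset.le_sum_of_subadditive (fun u : F => ‖u‖ ^ p) (by simp [Real.zero_rpow hp0.ne'])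
    (norm_add_rpow_le hp0 hp1) _ _).trans (le_of_eq (Finset.sum_congr rfl fun i _ => ?_))
  rw [norm_smul, Real.mul_rpow (norm_nonneg _) (norm_nonneg _)]

/-- the form with coordinates -/
theorem PN.of_integral_pi {ι : Type*} [Fintype ι] (hp0 : 0 < p) (hp1 : p < 1) {s : ι → Ω → F}
    (hm : ∀ i, AEStronglyMeasurable (s i) μ) (hint : ∀ i, Integrable (fun x => ‖s i x‖ ^ p) μ)
    (hne : ∀ a b : ι → ℂ, a ≠ 0 → b ≠ 0 →
      μ {x | ∑ i, a i • s i x ≠ 0 ∧ ∑ i, b i • s i x ≠ 0} ≠ 0) :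
    PN (fun a : ι → ℂ => ∫ x, ‖∑ i, a i • s i x‖ ^ p ∂μ) p := by
  let L : (ι → ℂ) →ₗ[ℂ] (Ω → F) :=
    { toFun := fun a x => ∑ i, a i • s i x
      map_add' := fun a b => by funext x; simp [add_smul, Finset.sum_add_distrib]
      map_smul' := fun c a => by funext x; simp [Finset.smul_sum, smul_smul] }
  have hL : ∀ a x, L a x = ∑ i, a i • s i x := fun _ _ => rfl
  have := PN.of_integral (μ := μ) hp0 hp1 L
    (fun a => by simpa only [hL] using integrable_comb hp0 hp1 hm hint a)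
    (fun a b ha hb => by simpa only [hL] using hne a b ha hb)
  simpa only [hL] using this

end Iso
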