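import Mathlib
import Pool.Agent.Lib.MP_5c318e_ag.V.Lev

/-! Functions that are subharmonic in one complex direction in the weak sense. -/

namespace Iso

open MeasureTheory Set Filter Topology Complex Function
open Pool.Agent.Lib.MP_5c318e_ag.V
open scoped ContDiff ENNReal Manifold

variable {E : Type*} [NormedAddCommGroup E] [NormedSpace ℂ E]

/-- nonnegative test functions with support in `U` -/
structure Test (U : Set E) (χ : E → ℝ) : Prop where
  sm : ContDiff ℝ ∞ χ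
  cs : HasCompactSupport χ
  sub : tsupport χ ⊆ U
  nn : ∀ z, 0 ≤ χ z

lemma lev_eq_pd {φ : E → ℝ} {x : E} (h : ContDiffAt ℝ ∞ φ x) (ξ : E) :
    lev φ x ξ = (fderiv ℝ (fun y => fderiv ℝ φ y ξ) x ξ
      + fderiv ℝ (fun y => fderiv ℝ φ y (I • ξ)) x (I • ξ)) / 4 := by
  rw [lev, d2_eq (cd2 h), d2_eq (cd2 h)]

lemma pd_sm {φ : E → ℝ} {x : E} (h : ContDiffAt ℝ ∞ φ x) (w : E) :
    ContDiffAt ℝ ∞ (fun y => fderiv ℝ φ y w) x :=
  (h.fderiv_right (m := ∞) (by norm_cast)).clm_apply contDiffAt_const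

lemma lev_congr {φ ψ : E → ℝ} {x : E} (h : φ =ᶠ[𝓝 x] ψ) (ξ : E) : lev φ x ξ = lev ψ x ξ := by
  rw [lev, lev, h.fderiv.fderiv_eq]

lemma continuousAt_lev {φ : E → ℝ} {x : E} (h : ContDiffAt ℝ ∞ φ x) (ξ : E) :
    ContinuousAt (fun y => lev φ y ξ) x := by
  have h2 : ContinuousAt (fderiv ℝ (fderiv ℝ φ)) x :=
    (((cd2 h).fderiv_right (m := 1) (by norm_num)).fderiv_right (m := 0)
      (by norm_num)).continuousAt
  exact (((h2.clm_apply continuousAt_const).clm_apply continuousAt_const).add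
    ((h2.clm_apply continuousAt_const).clm_apply continuousAt_const)).div_const 4

lemma lev_eq_zero_of_notMem {χ : E → ℝ} {x : E} (h : x ∉ tsupport χ) (ξ : E) : lev χ x ξ = 0 := by
  rw [lev_congr (notMem_tsupport_iff_eventuallyEq.1 h)]
  exact lev_const 0

lemma lev_line {φ : E → ℝ} {x : E} (h : ContDiffAt ℝ 2 φ x) (ξ : E) :
    lev φ x ξ = lev (fun c : ℂ => φ (x + c • ξ)) 0 1 := by
  have hg : HasFDerivAt (fun c : ℂ => x + c • ξ) (ContinuousLinearMap.toSpanSingleton ℂ ξ) 0 :=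
    ((ContinuousLinearMap.toSpanSingleton ℂ ξ).hasFDerivAt).const_add x
  rw [lev_comp_holo (g := fun c : ℂ => x + c • ξ) (by simpa using h) (by fun_prop), hg.fderiv]
  simp

/-- a factor that is constant in the direction `ξ` -/
lemma lev_inv_mul {β φ : E → ℝ} {x ξ : E} (hβ : ContDiffAt ℝ 2 β x) (hφ : ContDiffAt ℝ 2 φ x)
    (hi : ∀ c : ℂ, β (x + c • ξ) = β x) : lev (fun y => β y * φ y) x ξ = β x * lev φ x ξ := by
  rw [lev_line (hβ.mul hφ), lev_line hφ]
  simp only [hi]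
  refine lev_const_mul _ (ContDiffAt.comp (g := φ) 0 (by simpa using hφ) ?_)
  exact (show ContDiff ℂ 2 fun c : ℂ => x + c • ξ by fun_prop).contDiffAt.restrict_scalars ℝ

variable [MeasurableSpace E] [BorelSpace E]

/-- the Levi form of `u` in the direction `ξ` is at least `k` on `U`, in the weak sense -/
def WSub (μ : Measure E) (ξ : E) (u : E → ℝ) (k : E → ℝ≥0∞) (U : Set E) : Prop :=
  ∀ χ, Test U χ → 0 ≤ ∫ z, u z * lev χ z ξ ∂μ ∧
    ∫⁻ z, ENNReal.ofReal (χ z) * k z ∂μ ≤ ENNReal.ofReal (∫ z, u z * lev χ z ξ ∂μ)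

variable {μ : Measure E} {ξ : E} {u : E → ℝ} {k : E → ℝ≥0∞} {U V : Set E} {χ : E → ℝ}

omit [NormedSpace ℂ E] in
lemma integrable_mul_of {a b : E → ℝ} {K : Set E} (ha : LocallyIntegrableOn a U μ)
    (hK : IsCompact K) (hKU : K ⊆ U) (hb : ContinuousOn b K) (h0 : ∀ z ∉ K, b z = 0) :
    Integrable (fun z => a z * b z) μ := by
  refine (integrableOn_iff_integrable_of_support_subset (s := K) fun z hz => ?_).1
    ((ha.integrableOn_compact_subset hKU hK).mul_continuousOn hb hK)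
  by_contra h
  exact hz (by simp [h0 z h])

lemma Test.integrable (h : Test U χ) (hu : LocallyIntegrableOn u U μ) :
    Integrable (fun z => u z * lev χ z ξ) μ :=
  integrable_mul_of hu h.cs h.sub
    (fun _ _ => (continuousAt_lev h.sm.contDiffAt ξ).continuousWithinAt)
    fun _ hz => lev_eq_zero_of_notMem hz ξ

omit [BorelSpace E] in
lemma WSub.mono (h : WSub μ ξ u k V) (hUV : U ⊆ V) : WSub μ ξ u k U :=
  fun χ hχ => h χ ⟨hχ.sm, hχ.cs, hχ.sub.trans hUV, hχ.nn⟩

omit [BorelSpace E] in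
lemma WSub.mono_k (h : WSub μ ξ u k U) {k' : E → ℝ≥0∞} (hk : ∀ᵐ z ∂μ, z ∈ U → k' z ≤ k z) :
    WSub μ ξ u k' U := fun χ hχ => by
  refine ⟨(h χ hχ).1, le_trans (lintegral_mono_ae (hk.mono fun z hz => ?_)) (h χ hχ).2⟩
  by_cases hU : z ∈ U
  · exact mul_le_mul_right (hz hU) _
  · simp [image_eq_zero_of_notMem_tsupport fun h => hU (hχ.sub h)]

omit [BorelSpace E] in
lemma WSub.congr (h : WSub μ ξ u k U) {u' : E → ℝ} (hu : ∀ᵐ z ∂μ, z ∈ U → u' z = u z) :
    WSub μ ξ u' k U := fun χ hχ => by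
  have e : ∫ z, u' z * lev χ z ξ ∂μ = ∫ z, u z * lev χ z ξ ∂μ := by
    refine integral_congr_ae (hu.mono fun z hz => ?_)
    by_cases hU : z ∈ U
    · simp only [hz hU]
    · simp only [lev_eq_zero_of_notMem (fun h => hU (hχ.sub h)) ξ, mul_zero]
  rw [e]
  exact h χ hχ

/-- averages over a parameter -/
theorem WSub.integral [SFinite μ] {T : Type*} [MeasurableSpace T] {ν : Measure T} [SFinite ν]
    {u : T → E → ℝ} {k : T → E → ℝ≥0∞} (hk : AEMeasurable (uncurry k) (ν.prod μ))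
    (hu : ∀ K, IsCompact K → K ⊆ U → Integrable (uncurry u) (ν.prod (μ.restrict K)))
    (h : ∀ᵐ t ∂ν, WSub μ ξ (u t) (k t) U) :
    WSub μ ξ (fun z => ∫ t, u t z ∂ν) (fun z => ∫⁻ t, k t z ∂ν) U := by
  intro χ hχ
  have hl : Continuous fun z => lev χ z ξ :=
    continuous_iff_continuousAt.2 fun _ => continuousAt_lev hχ.sm.contDiffAt ξ
  have hK : MeasurableSet (tsupport χ) := (isClosed_tsupport χ).measurableSet
  obtain ⟨C, hC⟩ := IsCompact.exists_bound_of_continuousOn hχ.cs hl.continuousOn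
  have hI : Integrable (uncurry fun t z => u t z * lev χ z ξ) (ν.prod μ) := by
    have h1 := hu _ hχ.cs hχ.sub
    rw [← Measure.restrict_univ (μ := ν), Measure.prod_restrict] at h1
    refine (integrableOn_iff_integrable_of_support_subset (s := univ ×ˢ tsupport χ)
      fun p hp => ⟨trivial, ?_⟩).1 (h1.mul_bdd (c := C)
        (hl.measurable.comp measurable_snd).aestronglyMeasurable
        (ae_restrict_of_forall_mem (MeasurableSet.univ.prod hK) fun p hp => hC _ hp.2))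
    by_contra h0
    exact hp (by simp [uncurry, lev_eq_zero_of_notMem h0])
  have e : ∫ z, (∫ t, u t z ∂ν) * lev χ z ξ ∂μ = ∫ t, (∫ z, u t z * lev χ z ξ ∂μ) ∂ν := by
    rw [integral_integral_swap hI]
    simp only [integral_mul_const]
  have h0 : ∀ᵐ t ∂ν, 0 ≤ ∫ z, u t z * lev χ z ξ ∂μ := h.mono fun t ht => (ht χ hχ).1
  rw [e]
  refine ⟨integral_nonneg_of_ae h0, ?_⟩
  have hI2 : Integrable (fun t => ∫ z, u t z * lev χ z ξ ∂μ) ν := hI.integral_prod_left
  rw [ofReal_integral_eq_lintegral_ofReal hI2 h0]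
  have hm : AEMeasurable (uncurry fun t z => ENNReal.ofReal (χ z) * k t z) (ν.prod μ) :=
    ((hχ.sm.continuous.measurable.comp measurable_snd).ennreal_ofReal.aemeasurable).mul hk
  simp only [← lintegral_const_mul' _ _ ENNReal.ofReal_ne_top]
  rw [← lintegral_lintegral_swap hm]
  exact lintegral_mono_ae (h.mono fun t ht => (ht χ hχ).2)

variable [FiniteDimensional ℂ E]

lemma WSub.union (hU : IsOpen U) (hV : IsOpen V) (hu : LocallyIntegrableOn u (U ∪ V) μ)
    (hk : AEMeasurable k μ) (h1 : WSub μ ξ u k U) (h2 : WSub μ ξ u k V) :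
    WSub μ ξ u k (U ∪ V) := by
  have : FiniteDimensional ℝ E := Module.Finite.trans ℂ E
  intro χ hχ
  obtain ⟨K1, K2, hK1, -, hK1U, hK2V, hK⟩ := IsCompact.binary_compact_cover hχ.cs hU hV hχ.sub
  obtain ⟨φ, hφ0, hφ1, hφ⟩ := exists_contMDiffMap_zero_one_nhds_of_isClosed (n := ⊤) 𝓘(ℝ, E)
    hU.isClosed_compl hK1.isClosed (disjoint_left.2 fun x hx hx1 => hx (hK1U hx1))
  have hs : ContDiff ℝ ∞ φ := φ.contMDiff.contDiff
  have t1 : Test U fun z => φ z * χ z := by
    refine ⟨hs.mul hχ.sm, hχ.cs.mul_left, fun z hz => ?_, fun z => mul_nonneg (hφ z).1 (hχ.nn z)⟩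
    by_contra hzU
    refine notMem_tsupport_iff_eventuallyEq.2 ?_ hz
    filter_upwards [hφ0.filter_mono (nhds_le_nhdsSet hzU)] with y hy
    simp [hy]
  have t2 : Test V fun z => (1 - φ z) * χ z := by
    refine ⟨(contDiff_const.sub hs).mul hχ.sm, hχ.cs.mul_left, fun z hz => ?_,
      fun z => mul_nonneg (sub_nonneg.2 (hφ z).2) (hχ.nn z)⟩
    have h3 : z ∈ K1 ∪ K2 := hK ▸ tsupport_mul_subset_right hz
    refine hK2V (h3.resolve_left fun hz1 => notMem_tsupport_iff_eventuallyEq.2 ?_ hz)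
    filter_upwards [hφ1.filter_mono (nhds_le_nhdsSet hz1)] with y hy
    simp [hy]
  have e : χ = fun z => φ z * χ z + (1 - φ z) * χ z := by funext z; ring
  have e1 : ∫ z, u z * lev χ z ξ ∂μ = ∫ z, u z * lev (fun z => φ z * χ z) z ξ ∂μ
      + ∫ z, u z * lev (fun z => (1 - φ z) * χ z) z ξ ∂μ := by
    rw [← integral_add (t1.integrable (hu.mono_set subset_union_left))
      (t2.integrable (hu.mono_set subset_union_right))]
    refine integral_congr_ae (Eventually.of_forall fun z => ?_)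
    simp only
    rw [← mul_add, ← lev_add (cd2 t1.sm.contDiffAt) (cd2 t2.sm.contDiffAt), ← e]
  obtain ⟨a1, b1⟩ := h1 _ t1
  obtain ⟨a2, b2⟩ := h2 _ t2
  rw [e1, ENNReal.ofReal_add a1 a2]
  refine ⟨add_nonneg a1 a2, le_trans (le_of_eq ?_) (add_le_add b1 b2)⟩
  have hm : AEMeasurable (fun z => ENNReal.ofReal (φ z * χ z) * k z) μ :=
    t1.sm.continuous.measurable.ennreal_ofReal.aemeasurable.mul hk
  rw [← lintegral_add_left' hm]
  refine lintegral_congr fun z => ?_
  rw [← add_mul, ← ENNReal.ofReal_add (t1.nn z) (t2.nn z)]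
  congr 2
  ring

/-- the weak inequality is local -/
theorem WSub.glob (hU : IsOpen U) (hu : LocallyIntegrableOn u U μ) (hk : AEMeasurable k μ)
    (h : ∀ a ∈ U, ∃ V ∈ 𝓝 a, WSub μ ξ u k V) : WSub μ ξ u k U := by
  intro χ hχ
  have key : ∃ V, IsOpen V ∧ tsupport χ ⊆ V ∧ V ⊆ U ∧ WSub μ ξ u k V := by
    refine IsCompact.induction_on (p := fun s => ∃ V, IsOpen V ∧ s ⊆ V ∧ V ⊆ U ∧ WSub μ ξ u k V)
      hχ.cs ⟨∅, isOpen_empty, Subset.rfl, empty_subset _, fun ψ hψ => ?_⟩ ?_ ?_ ?_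
    · have h0 : ∀ z, z ∉ tsupport ψ := fun z hz => hψ.sub hz
      simp [lev_eq_zero_of_notMem (h0 _), image_eq_zero_of_notMem_tsupport (h0 _)]
    · rintro s t hst ⟨V, h1, h2, h3⟩
      exact ⟨V, h1, hst.trans h2, h3⟩
    · rintro s t ⟨V, h1, h2, h3, h4⟩ ⟨W, g1, g2, g3, g4⟩
      exact ⟨V ∪ W, h1.union g1, union_subset_union h2 g2, union_subset h3 g3,
        WSub.union h1 g1 (hu.mono_set (union_subset h3 g3)) hk h4 g4⟩
    · intro a ha
      obtain ⟨V, hV, hW⟩ := h a (hχ.sub ha)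
      have ho : IsOpen (interior V ∩ U) := isOpen_interior.inter hU
      exact ⟨interior V ∩ U, mem_nhdsWithin_of_mem_nhds
        (ho.mem_nhds ⟨mem_interior_iff_mem_nhds.2 hV, hχ.sub ha⟩), _, ho, Subset.rfl,
        inter_subset_right, hW.mono (inter_subset_left.trans interior_subset)⟩
  obtain ⟨V, -, h2, -, h4⟩ := key
  exact h4 χ ⟨hχ.sm, hχ.cs, h2, hχ.nn⟩

variable [μ.IsAddHaarMeasure]

lemma parts (hU : IsOpen U) {a b : E → ℝ} (ha : ∀ z ∈ U, ContDiffAt ℝ ∞ a z) (hb : ContDiff ℝ ∞ b)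
    (hc : HasCompactSupport b) (hs : tsupport b ⊆ U) (v : E) :
    ∫ z, a z * fderiv ℝ b z v ∂μ = -∫ z, fderiv ℝ a z v * b z ∂μ := by
  have : FiniteDimensional ℝ E := Module.Finite.trans ℂ E
  have li : ∀ {f : E → ℝ}, (∀ z ∈ U, ContDiffAt ℝ ∞ f z) → LocallyIntegrableOn f U μ :=
    fun hf => ContinuousOn.locallyIntegrableOn
      (fun z hz => (hf z hz).continuousAt.continuousWithinAt) hU.measurableSet
  refine integral_mul_fderiv_eq_neg_fderiv_mul_of_integrable
    (integrable_mul_of (li fun z hz => pd_sm (ha z hz) v) hc hs hb.continuous.continuousOn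
      fun z hz => image_eq_zero_of_notMem_tsupport hz)
    (integrable_mul_of (li ha) hc hs
      (fun z _ => (pd_sm hb.contDiffAt v).continuousAt.continuousWithinAt)
      fun z hz => by simp [fderiv_of_notMem_tsupport ℝ hz])
    (integrable_mul_of (li ha) hc hs hb.continuous.continuousOn
      fun z hz => image_eq_zero_of_notMem_tsupport hz)
    (fun z hz => (ha z (hs hz)).differentiableAt (by simp))
    fun z _ => hb.differentiable (by simp) z

/-- Green formula -/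
lemma green (hU : IsOpen U) (hu : ∀ z ∈ U, ContDiffAt ℝ ∞ u z) (hb : ContDiff ℝ ∞ χ)
    (hc : HasCompactSupport χ) (hs : tsupport χ ⊆ U) :
    ∫ z, u z * lev χ z ξ ∂μ = ∫ z, lev u z ξ * χ z ∂μ := by
  have li : ∀ {f : E → ℝ}, (∀ z ∈ U, ContDiffAt ℝ ∞ f z) → LocallyIntegrableOn f U μ :=
    fun hf => ContinuousOn.locallyIntegrableOn
      (fun z hz => (hf z hz).continuousAt.continuousWithinAt) hU.measurableSet
  have pb : ∀ v, ContDiff ℝ ∞ fun y => fderiv ℝ χ y v := fun v =>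
    contDiff_iff_contDiffAt.2 fun _ => pd_sm hb.contDiffAt v
  have h1 : ∀ v : E, ∫ z, u z * fderiv ℝ (fun y => fderiv ℝ χ y v) z v ∂μ
      = ∫ z, fderiv ℝ (fun y => fderiv ℝ u y v) z v * χ z ∂μ := fun v => by
    rw [parts hU hu (pb v) (hc.fderiv_apply ℝ v) ((tsupport_fderiv_apply_subset ℝ v).trans hs),
      parts hU (fun z hz => pd_sm (hu z hz) v) hb hc hs, neg_neg]
  have i1 : ∀ v : E, Integrable (fun z => u z * fderiv ℝ (fun y => fderiv ℝ χ y v) z v) μ :=
    fun v => integrable_mul_of (li hu) hc hs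
      (fun z _ => (pd_sm (pb v).contDiffAt v).continuousAt.continuousWithinAt) fun z hz => by
        rw [fderiv_of_notMem_tsupport ℝ fun h => hz (tsupport_fderiv_apply_subset ℝ v h)]; rfl
  have i2 : ∀ v : E, Integrable (fun z => fderiv ℝ (fun y => fderiv ℝ u y v) z v * χ z) μ :=
    fun v => integrable_mul_of (li fun z hz => pd_sm (pd_sm (hu z hz) v) v) hc hs
      hb.continuous.continuousOn fun z hz => image_eq_zero_of_notMem_tsupport hz
  have h2 := congrArg (· / 4) (congrArg₂ (· + ·) (h1 ξ) (h1 (I • ξ)))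
  simp only [← integral_add (i1 _) (i1 _), ← integral_add (i2 _) (i2 _), ← integral_div] at h2
  refine (integral_congr_ae (Eventually.of_forall fun z => ?_)).trans
    (h2.trans (integral_congr_ae (Eventually.of_forall fun z => ?_)))
  · simp only [lev_eq_pd hb.contDiffAt]; ring
  · by_cases hz : z ∈ U
    · simp only [lev_eq_pd (hu z hz)]; ring
    · simp [image_eq_zero_of_notMem_tsupport fun h => hz (hs h)]

lemma integral_lev (hb : ContDiff ℝ ∞ χ) (hc : HasCompactSupport χ) :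
    ∫ z, lev χ z ξ ∂μ = 0 := by
  have := green (μ := μ) (ξ := ξ) (u := fun _ => 1) isOpen_univ (fun _ _ => contDiffAt_const) hb hc
    (subset_univ _)
  simpa using this

/-- smooth functions -/
theorem WSub.of_smooth (hU : IsOpen U) (hu : ∀ z ∈ U, ContDiffAt ℝ ∞ u z)
    (h0 : ∀ z ∈ U, 0 ≤ lev u z ξ) : WSub μ ξ u (fun z => ENNReal.ofReal (lev u z ξ)) U := by
  intro χ hχ
  have hn : ∀ z, 0 ≤ lev u z ξ * χ z := fun z => by
    by_cases hz : z ∈ U
    · exact mul_nonneg (h0 z hz) (hχ.nn z)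
    · simp [image_eq_zero_of_notMem_tsupport fun h => hz (hχ.sub h)]
  have hi : Integrable (fun z => lev u z ξ * χ z) μ :=
    integrable_mul_of (ContinuousOn.locallyIntegrableOn
      (fun z hz => (continuousAt_lev (hu z hz) ξ).continuousWithinAt) hU.measurableSet)
      hχ.cs hχ.sub hχ.sm.continuous.continuousOn fun z hz => image_eq_zero_of_notMem_tsupport hz
  rw [green hU hu hχ.sm hχ.cs hχ.sub]
  refine ⟨integral_nonneg hn, le_of_eq ?_⟩
  rw [ofReal_integral_eq_lintegral_ofReal hi (Eventually.of_forall hn)]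
  exact lintegral_congr fun z => by rw [← ENNReal.ofReal_mul (hχ.nn z), mul_comm]

end Iso
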